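import Pool.Agent.W506.PM.A2
import Pool.Agent.W506.PM.GR

/-!
# A graded Clifford algebra with two point modules: the presentation
-/

set_option autoImplicit false

universe u

namespace Pool.Agent.V1150.TP

open Pool.Agent.W506.PM

variable {k : Type u} [Field k]

/-- all `mu_ij` are one -/
def mu1 : Fin 4 → Fin 4 → k := fun _ _ => 1

/-- coefficient -/
def al (j0 : k) : k := 2 * j0 - 3
/-- coefficient -/
def be (j0 : k) : k := -(1 + 2 * j0)
/-- coefficient -/
def ga (j0 : k) : k := 2 * (1 + j0)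
/-- coefficient -/
def de (j0 : k) : k := 2 * (j0 - 1)

/-- The four symmetric matrices, for `j0 ^ 2 = -1`; the generators are `c, a, d, b`. -/
def MT (j0 : k) : Fin 4 → Matrix (Fin 4) (Fin 4) k :=
  ![!![0, 0, 0, 0; 0, 0, 0, 1; 0, 0, 0, 0; 0, 1, 0, 0],
    !![0, 1, 0, 1; 1, 0, 1, 0; 0, 1, 0, -1; 1, 0, -1, 0],
    !![2, 0, 0, 0; 0, 2 * al j0, 0, 0; 0, 0, 0, 2; 0, 0, 2, 2 * 2],
    !![0, de j0, 0, -2; de j0, 2 * be j0, 0, 0; 0, 0, 2, ga j0; -2, 0, ga j0, 2 * ga j0]]

/-- The tensor of the six relations. -/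
def rt (j0 : k) : Fin 6 → Fin 4 → Fin 4 → k :=
  ![![![-al j0, 0, 0, 0], ![0, 1, 0, 0], ![0, 0, -be j0, 0], ![0, 0, 0, 0]],
    ![![-2, 0, 0, 0], ![0, 0, 0, 0], ![0, 0, -ga j0, 0], ![0, 0, 0, 1]],
    ![![0, 0, 1, 0], ![0, 0, 0, 0], ![1, 0, 0, 0], ![0, 0, 0, 0]],
    ![![0, 1, 0, 0], ![1, 0, -1, 0], ![0, -1, -de j0, 0], ![0, 0, 0, 0]],
    ![![0, 0, 0, 1], ![0, 0, -1, 0], ![0, -1, 2, 0], ![1, 0, 0, 0]],
    ![![-2, 0, 0, 0], ![0, 0, 1, 0], ![0, 1, -ga j0, 1], ![0, 0, 1, 0]]]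

/-- The six relations for four elements of an algebra. -/
structure Rl (j0 : k) {E : Type u} [Ring E] [Algebra k E] (c a d b : E) : Prop where
  aa : a * a = al j0 • (c * c) + be j0 • (d * d)
  bb : b * b = (2 : k) • (c * c) + ga j0 • (d * d)
  dc : d * c = -(c * d)
  ac : a * c + c * a = a * d + d * a + de j0 • (d * d)
  bc : b * c + c * b = a * d + d * a - (2 : k) • (d * d)
  bd : b * d + d * b = -(a * d + d * a) + (2 : k) • (c * c) + ga j0 • (d * d)

theorem rl_iff (j0 : k) {E : Type u} [Ring E] [Algebra k E] (y : Fin 4 → E) :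
    (∀ i, ∑ j, ∑ l, rt j0 i j l • (y j * y l) = 0) ↔ Rl j0 (y 0) (y 1) (y 2) (y 3) := by
  have e0 : ∑ j, ∑ l, rt j0 0 j l • (y j * y l)
      = y 1 * y 1 - (al j0 • (y 0 * y 0) + be j0 • (y 2 * y 2)) := by
    simp [Fin.sum_univ_four, rt]; abel
  have e1 : ∑ j, ∑ l, rt j0 1 j l • (y j * y l)
      = y 3 * y 3 - ((2 : k) • (y 0 * y 0) + ga j0 • (y 2 * y 2)) := by
    simp [Fin.sum_univ_four, rt]; abel
  have e2 : ∑ j, ∑ l, rt j0 2 j l • (y j * y l) = y 2 * y 0 - -(y 0 * y 2) := by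
    simp [Fin.sum_univ_four, rt]; abel
  have e3 : ∑ j, ∑ l, rt j0 3 j l • (y j * y l)
      = y 1 * y 0 + y 0 * y 1 - (y 1 * y 2 + y 2 * y 1 + de j0 • (y 2 * y 2)) := by
    simp [Fin.sum_univ_four, rt]; abel
  have e4 : ∑ j, ∑ l, rt j0 4 j l • (y j * y l)
      = y 3 * y 0 + y 0 * y 3 - (y 1 * y 2 + y 2 * y 1 - (2 : k) • (y 2 * y 2)) := by
    simp [Fin.sum_univ_four, rt]; abel
  have e5 : ∑ j, ∑ l, rt j0 5 j l • (y j * y l)
      = y 3 * y 2 + y 2 * y 3
        - (-(y 1 * y 2 + y 2 * y 1) + (2 : k) • (y 0 * y 0) + ga j0 • (y 2 * y 2)) := by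
    simp [Fin.sum_univ_four, rt]; abel
  constructor
  · intro h
    exact ⟨sub_eq_zero.1 (e0 ▸ h 0), sub_eq_zero.1 (e1 ▸ h 1), sub_eq_zero.1 (e2 ▸ h 2),
      sub_eq_zero.1 (e3 ▸ h 3), sub_eq_zero.1 (e4 ▸ h 4), sub_eq_zero.1 (e5 ▸ h 5)⟩
  · intro h i
    fin_cases i
    · exact e0.trans (sub_eq_zero.2 h.aa)
    · exact e1.trans (sub_eq_zero.2 h.bb)
    · exact e2.trans (sub_eq_zero.2 h.dc)
    · exact e3.trans (sub_eq_zero.2 h.ac)
    · exact e4.trans (sub_eq_zero.2 h.bc)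
    · exact e5.trans (sub_eq_zero.2 h.bd)

/-- The algebra. -/
abbrev TA (j0 : k) : Type u := GAlg k (mu1 (k := k)) (MT j0)

section

variable (j0 : k)

/-- generators -/
noncomputable abbrev gc : TA j0 := gx k mu1 (MT j0) 0
/-- generators -/
noncomputable abbrev gaa : TA j0 := gx k mu1 (MT j0) 1
/-- generators -/
noncomputable abbrev gd : TA j0 := gx k mu1 (MT j0) 2
/-- generators -/
noncomputable abbrev gb : TA j0 := gx k mu1 (MT j0) 3

/-- the relation `(i, j)` with the sum written out -/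
theorem t_rel4 (i j : Fin 4) (m0 m1 m2 m3 : k)
    (h0 : MT j0 0 i j = m0) (h1 : MT j0 1 i j = m1) (h2 : MT j0 2 i j = m2)
    (h3 : MT j0 3 i j = m3) :
    gx k mu1 (MT j0) i * gx k mu1 (MT j0) j + gx k mu1 (MT j0) j * gx k mu1 (MT j0) i
      = m0 • gy k mu1 (MT j0) 0 + m1 • gy k mu1 (MT j0) 1
        + m2 • gy k mu1 (MT j0) 2 + m3 • gy k mu1 (MT j0) 3 := by
  have h := g_rel (k := k) mu1 (MT j0) i j
  rw [← h0, ← h1, ← h2, ← h3]
  rw [Fin.sum_univ_four] at h
  rw [← h, mu1, one_smul]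

variable (h2 : (2 : k) ≠ 0) (hi : j0 ^ 2 = -1)

include h2 in
theorem ty2_eq : gy k mu1 (MT j0) 2 = gc j0 * gc j0 := by
  have h := t_rel4 j0 0 0 0 0 2 0 rfl rfl rfl rfl
  simp only [zero_smul, zero_add, add_zero] at h
  exact (two_inj h2 h).symm

include h2 in
theorem ty3_eq : gy k mu1 (MT j0) 3 = gd j0 * gd j0 := by
  have h := t_rel4 j0 2 2 0 0 0 2 rfl rfl rfl rfl
  simp only [zero_smul, zero_add, add_zero] at h
  exact (two_inj h2 h).symm

theorem ty1_eq : gy k mu1 (MT j0) 1 = gaa j0 * gd j0 + gd j0 * gaa j0 := by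
  have h := t_rel4 j0 1 2 0 1 0 0 rfl rfl rfl rfl
  simp only [one_smul, zero_smul, zero_add, add_zero] at h
  exact h.symm

theorem ty0_eq : gy k mu1 (MT j0) 0 = gaa j0 * gb j0 + gb j0 * gaa j0 := by
  have h := t_rel4 j0 1 3 1 0 0 0 rfl rfl rfl rfl
  simp only [one_smul, zero_smul, zero_add, add_zero] at h
  exact h.symm

include h2 in
theorem rl_TA : Rl j0 (gc j0) (gaa j0) (gd j0) (gb j0) := by
  constructor
  · have h := t_rel4 j0 1 1 0 0 (2 * al j0) (2 * be j0) rfl rfl rfl rfl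
    simp only [zero_smul, zero_add, add_zero] at h
    apply two_inj h2
    rw [h, ty2_eq j0 h2, ty3_eq j0 h2, smul_add, smul_smul, smul_smul]
  · have h := t_rel4 j0 3 3 0 0 (2 * 2) (2 * ga j0) rfl rfl rfl rfl
    simp only [zero_smul, zero_add, add_zero] at h
    apply two_inj h2
    rw [h, ty2_eq j0 h2, ty3_eq j0 h2, smul_add, smul_smul, smul_smul]
  · have h := t_rel4 j0 2 0 0 0 0 0 rfl rfl rfl rfl
    simp only [zero_smul, add_zero] at h
    exact eq_neg_of_add_eq_zero_left h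
  · have h := t_rel4 j0 1 0 0 1 0 (de j0) rfl rfl rfl rfl
    simp only [one_smul, zero_smul, zero_add, add_zero] at h
    rw [h, ty1_eq j0, ty3_eq j0 h2]
  · have h := t_rel4 j0 3 0 0 1 0 (-2) rfl rfl rfl rfl
    simp only [one_smul, zero_smul, zero_add, add_zero, neg_smul] at h
    rw [h, ty1_eq j0, ty3_eq j0 h2, ← sub_eq_add_neg]
  · have h := t_rel4 j0 3 2 0 (-1) 2 (ga j0) rfl rfl rfl rfl
    simp only [one_smul, zero_smul, zero_add, neg_smul] at h
    rw [h, ty1_eq j0, ty3_eq j0 h2, ty2_eq j0 h2]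

/-- The universal property. -/
theorem up_TA (E : Type u) [Ring E] [Algebra k E] (c a d b : E) (h : Rl j0 c a d b) :
    ∃ f : TA j0 →ₐ[k] E, f (gc j0) = c ∧ f (gaa j0) = a ∧ f (gd j0) = d ∧ f (gb j0) = b := by
  set y : Fin 4 ⊕ Fin 4 → E :=
    Sum.elim ![c, a, d, b] ![a * b + b * a, a * d + d * a, c * c, d * d] with hy
  have key : ∀ i j : Fin 4, y (Sum.inl i) * y (Sum.inl j) + y (Sum.inl j) * y (Sum.inl i)
        = MT j0 0 i j • y (Sum.inr 0) + MT j0 1 i j • y (Sum.inr 1)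
          + MT j0 2 i j • y (Sum.inr 2) + MT j0 3 i j • y (Sum.inr 3) := by
    have e00 : c * c + c * c = (0 : k) • (a * b + b * a) + (0 : k) • (a * d + d * a)
        + (2 : k) • (c * c) + (0 : k) • (d * d) := by
      simp only [zero_smul, add_zero, zero_add, two_smul]
    have e10 : a * c + c * a = (0 : k) • (a * b + b * a) + (1 : k) • (a * d + d * a)
        + (0 : k) • (c * c) + de j0 • (d * d) := by
      simp only [zero_smul, one_smul, add_zero, zero_add, h.ac]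
    have e20 : d * c + c * d = (0 : k) • (a * b + b * a) + (0 : k) • (a * d + d * a)
        + (0 : k) • (c * c) + (0 : k) • (d * d) := by
      simp only [zero_smul, add_zero, h.dc, neg_add_cancel]
    have e30 : b * c + c * b = (0 : k) • (a * b + b * a) + (1 : k) • (a * d + d * a)
        + (0 : k) • (c * c) + (-2 : k) • (d * d) := by
      simp only [zero_smul, one_smul, add_zero, zero_add, h.bc, neg_smul, sub_eq_add_neg]
    have e11 : a * a + a * a = (0 : k) • (a * b + b * a) + (0 : k) • (a * d + d * a)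
        + (2 * al j0) • (c * c) + (2 * be j0) • (d * d) := by
      simp only [zero_smul, add_zero, zero_add]
      rw [← two_smul k (a * a), h.aa, smul_add, smul_smul, smul_smul]
    have e21 : d * a + a * d = (0 : k) • (a * b + b * a) + (1 : k) • (a * d + d * a)
        + (0 : k) • (c * c) + (0 : k) • (d * d) := by
      simp only [zero_smul, one_smul, add_zero, zero_add]; abel
    have e31 : b * a + a * b = (1 : k) • (a * b + b * a) + (0 : k) • (a * d + d * a)
        + (0 : k) • (c * c) + (0 : k) • (d * d) := by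
      simp only [zero_smul, one_smul, add_zero]; abel
    have e22 : d * d + d * d = (0 : k) • (a * b + b * a) + (0 : k) • (a * d + d * a)
        + (0 : k) • (c * c) + (2 : k) • (d * d) := by
      simp only [zero_smul, add_zero, zero_add, two_smul]
    have e32 : b * d + d * b = (0 : k) • (a * b + b * a) + (-1 : k) • (a * d + d * a)
        + (2 : k) • (c * c) + ga j0 • (d * d) := by
      simp only [zero_smul, one_smul, zero_add, h.bd, neg_smul]
    have e33 : b * b + b * b = (0 : k) • (a * b + b * a) + (0 : k) • (a * d + d * a)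
        + (2 * 2 : k) • (c * c) + (2 * ga j0) • (d * d) := by
      simp only [zero_smul, add_zero, zero_add]
      rw [← two_smul k (b * b), h.bb, smul_add, smul_smul, smul_smul]
    intro i j
    fin_cases i <;> fin_cases j
    exacts [e00, (add_comm _ _).trans e10, (add_comm _ _).trans e20, (add_comm _ _).trans e30,
      e10, e11, (add_comm _ _).trans e21, (add_comm _ _).trans e31,
      e20, e21, e22, (add_comm _ _).trans e32, e30, e31, e32, e33]
  have hI : ∀ z ∈ (TwoSidedIdeal.span (grel k mu1 (MT j0))).asIdeal,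
      FreeAlgebra.lift k y z = 0 := by
    intro z hz
    rw [TwoSidedIdeal.mem_asIdeal] at hz
    have hle : TwoSidedIdeal.span (grel k mu1 (MT j0))
        ≤ TwoSidedIdeal.ker (FreeAlgebra.lift k y) := by
      rw [TwoSidedIdeal.span_le]
      rintro _ ⟨i, j, rfl⟩
      apply (TwoSidedIdeal.mem_ker _).2
      simp only [map_sub, map_add, map_mul, map_smul, map_sum, FreeAlgebra.lift_ι_apply]
      rw [Fin.sum_univ_four, ← key, mu1, one_smul, sub_self]
    exact (TwoSidedIdeal.mem_ker _).1 (hle hz)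
  have hf : ∀ i, Ideal.Quotient.liftₐ _ (FreeAlgebra.lift k y) hI (gx k mu1 (MT j0) i)
      = y (Sum.inl i) := fun i => FreeAlgebra.lift_ι_apply y (Sum.inl i)
  exact ⟨Ideal.Quotient.liftₐ _ (FreeAlgebra.lift k y) hI, hf 0, hf 1, hf 2, hf 3⟩

include h2 in
theorem adjoin_TA : Algebra.adjoin k (Set.range (gx k mu1 (MT j0))) = ⊤ := by
  rw [eq_top_iff, ← galg_adjoin]
  apply Algebra.adjoin_le
  have hx : ∀ i, gx k mu1 (MT j0) i ∈ Algebra.adjoin k (Set.range (gx k mu1 (MT j0))) :=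
    fun i => Algebra.subset_adjoin ⟨i, rfl⟩
  rintro _ (⟨i, rfl⟩ | ⟨l, rfl⟩)
  · exact hx i
  · fin_cases l
    · exact (ty0_eq j0).symm ▸ Subalgebra.add_mem _ (Subalgebra.mul_mem _ (hx 1) (hx 3))
        (Subalgebra.mul_mem _ (hx 3) (hx 1))
    · exact (ty1_eq j0).symm ▸ Subalgebra.add_mem _ (Subalgebra.mul_mem _ (hx 1) (hx 2))
        (Subalgebra.mul_mem _ (hx 2) (hx 1))
    · exact (ty2_eq j0 h2).symm ▸ Subalgebra.mul_mem _ (hx 0) (hx 0)
    · exact (ty3_eq j0 h2).symm ▸ Subalgebra.mul_mem _ (hx 2) (hx 2)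

include h2 in
theorem isPres_TA : IsPres (gx k mu1 (MT j0)) (rt j0) where
  rel := (rl_iff j0 _).2 (rl_TA j0 h2)
  gen := adjoin_TA j0 h2
  up E _ _ y hy := by
    obtain ⟨f, h0, h1, h2, h3⟩ := up_TA j0 E _ _ _ _ ((rl_iff j0 y).1 hy)
    refine ⟨f, fun j => ?_⟩
    fin_cases j
    exacts [h0, h1, h2, h3]

end

end Pool.Agent.V1150.TP
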