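import Pool.Agent.V1150.TP.A

/-!
# Central elements
-/

set_option autoImplicit false

universe u

namespace Pool.Agent.V1150.TP

open Pool.Agent.W506.PM

variable {k : Type u} [Field k]

section

variable {j0 : k} {E : Type u} [Ring E] [Algebra k E] {c a d b : E} (h : Rl j0 c a d b)

include h

theorem Rl.dX : Commute d (c * c) := by
  show d * (c * c) = c * c * d
  rw [← mul_assoc, h.dc, neg_mul, mul_assoc, h.dc]
  noncomm_ring

theorem Rl.cZ : Commute c (d * d) := by
  show c * (d * d) = d * d * c
  rw [mul_assoc d d c, h.dc, mul_neg, ← mul_assoc d c d, h.dc]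
  noncomm_ring

omit h in
theorem cXX (c : E) : Commute c (c * c) := (Commute.refl c).mul_right (Commute.refl c)

theorem Rl.Qa : Commute a (a * d + d * a) := by
  have h1 : Commute d (a * a) := by
    rw [h.aa]
    exact ((h.dX).smul_right _).add_right ((cXX d).smul_right _)
  show a * (a * d + d * a) = (a * d + d * a) * a
  have e : a * (a * d + d * a) - (a * d + d * a) * a = a * a * d - d * (a * a) := by
    noncomm_ring
  rw [← sub_eq_zero, e, h1.eq, sub_self]

theorem Rl.Ca : Commute a (a * c + c * a) := by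
  have h1 : Commute c (a * a) := by
    rw [h.aa]
    exact ((cXX c).smul_right _).add_right ((h.cZ).smul_right _)
  show a * (a * c + c * a) = (a * c + c * a) * a
  have e : a * (a * c + c * a) - (a * c + c * a) * a = a * a * c - c * (a * a) := by
    noncomm_ring
  rw [← sub_eq_zero, e, h1.eq, sub_self]

omit h in
theorem de_ne (h2 : (2 : k) ≠ 0) (hi : j0 ^ 2 = -1) : de j0 ≠ 0 := by
  intro h0
  rw [de] at h0
  rcases mul_eq_zero.1 h0 with h1 | h1
  · exact h2 h1
  · have h3 : j0 = 1 := sub_eq_zero.1 h1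
    rw [h3] at hi
    apply h2
    linear_combination hi

omit h in
theorem com_of_smul {x y : E} {s : k} (hs : s ≠ 0) (hc : Commute x (s • y)) : Commute x y := by
  have := hc.smul_right s⁻¹
  rwa [smul_smul, inv_mul_cancel₀ hs, one_smul] at this

theorem Rl.aZ (h2 : (2 : k) ≠ 0) (hi : j0 ^ 2 = -1) : Commute a (d * d) := by
  apply com_of_smul (de_ne h2 hi)
  have h1 := h.Ca
  rw [h.ac] at h1
  have h3 := h1.sub_right h.Qa
  rwa [add_sub_cancel_left] at h3

theorem Rl.dQ (h2 : (2 : k) ≠ 0) (hi : j0 ^ 2 = -1) : Commute d (a * d + d * a) := by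
  show d * (a * d + d * a) = (a * d + d * a) * d
  have e : d * (a * d + d * a) - (a * d + d * a) * d = d * d * a - a * (d * d) := by
    noncomm_ring
  rw [← sub_eq_zero, e, (h.aZ h2 hi).eq, sub_self]

theorem Rl.bZ (h2 : (2 : k) ≠ 0) (hi : j0 ^ 2 = -1) : Commute b (d * d) := by
  have h1 : Commute d (b * d + d * b) := by
    rw [h.bd]
    exact (((h.dQ h2 hi).neg_right).add_right ((h.dX).smul_right _)).add_right
      ((cXX d).smul_right _)
  show b * (d * d) = d * d * b
  have e : b * (d * d) - d * d * b = (b * d + d * b) * d - d * (b * d + d * b) := by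
    noncomm_ring
  rw [← sub_eq_zero, e, h1.eq, sub_self]

theorem Rl.bX (h2 : (2 : k) ≠ 0) (hi : j0 ^ 2 = -1) : Commute b (c * c) := by
  have h1 : Commute b (b * b) := cXX b
  rw [h.bb] at h1
  have h3 := h1.sub_right ((h.bZ h2 hi).smul_right (ga j0))
  rw [add_sub_cancel_right] at h3
  exact com_of_smul h2 h3

theorem Rl.cQ (h2 : (2 : k) ≠ 0) (hi : j0 ^ 2 = -1) : Commute c (a * d + d * a) := by
  have h1 : Commute c (b * c + c * b) := by
    show c * (b * c + c * b) = (b * c + c * b) * c
    have e : c * (b * c + c * b) - (b * c + c * b) * c = c * c * b - b * (c * c) := by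
      noncomm_ring
    rw [← sub_eq_zero, e, (h.bX h2 hi).eq, sub_self]
  rw [h.bc] at h1
  have h3 := h1.add_right ((h.cZ).smul_right (2 : k))
  rwa [sub_add_cancel] at h3

theorem Rl.aX (h2 : (2 : k) ≠ 0) (hi : j0 ^ 2 = -1) : Commute a (c * c) := by
  have h1 : Commute c (a * c + c * a) := by
    rw [h.ac]
    exact (h.cQ h2 hi).add_right ((h.cZ).smul_right _)
  show a * (c * c) = c * c * a
  have e : a * (c * c) - c * c * a = (a * c + c * a) * c - c * (a * c + c * a) := by
    noncomm_ring
  rw [← sub_eq_zero, e, h1.eq, sub_self]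

theorem Rl.bQ (h2 : (2 : k) ≠ 0) (hi : j0 ^ 2 = -1) : Commute b (a * d + d * a) := by
  have h0 : Commute c (b * b) := by
    rw [h.bb]
    exact ((cXX c).smul_right _).add_right ((h.cZ).smul_right _)
  have h1 : Commute b (b * c + c * b) := by
    show b * (b * c + c * b) = (b * c + c * b) * b
    have e : b * (b * c + c * b) - (b * c + c * b) * b = b * b * c - c * (b * b) := by
      noncomm_ring
    rw [← sub_eq_zero, e, h0.eq, sub_self]
  rw [h.bc] at h1
  have h3 := h1.add_right ((h.bZ h2 hi).smul_right (2 : k))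
  rwa [sub_add_cancel] at h3

theorem Rl.aP (h2 : (2 : k) ≠ 0) (hi : j0 ^ 2 = -1) : Commute a (a * b + b * a) := by
  have h1 : Commute b (a * a) := by
    rw [h.aa]
    exact ((h.bX h2 hi).smul_right _).add_right ((h.bZ h2 hi).smul_right _)
  show a * (a * b + b * a) = (a * b + b * a) * a
  have e : a * (a * b + b * a) - (a * b + b * a) * a = a * a * b - b * (a * a) := by
    noncomm_ring
  rw [← sub_eq_zero, e, h1.eq, sub_self]

theorem Rl.bP (h2 : (2 : k) ≠ 0) (hi : j0 ^ 2 = -1) : Commute b (a * b + b * a) := by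
  have h1 : Commute a (b * b) := by
    rw [h.bb]
    exact ((h.aX h2 hi).smul_right _).add_right ((h.aZ h2 hi).smul_right _)
  show b * (a * b + b * a) = (a * b + b * a) * b
  have e : b * (a * b + b * a) - (a * b + b * a) * b = b * b * a - a * (b * b) := by
    noncomm_ring
  rw [← sub_eq_zero, e, h1.eq, sub_self]

omit h in
/-- `y` commutes with `a b + b a` if it anticommutes with `a` and `b` up to central elements -/
theorem com_anti {y a b A B : E} (hA : a * y + y * a = A) (hB : b * y + y * b = B)
    (h1 : Commute b A) (h2 : Commute a B) : Commute y (a * b + b * a) := by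
  have ea : a * y = A - y * a := by rw [← hA]; abel
  have eb : b * y = B - y * b := by rw [← hB]; abel
  show y * (a * b + b * a) = (a * b + b * a) * y
  have e1 : (a * b + b * a) * y = a * (b * y) + b * (a * y) := by noncomm_ring
  rw [e1, ea, eb, mul_sub, mul_sub, ← mul_assoc a y b, ← mul_assoc b y a, ea, eb, h1.eq, h2.eq]
  noncomm_ring

theorem Rl.cP (h2 : (2 : k) ≠ 0) (hi : j0 ^ 2 = -1) : Commute c (a * b + b * a) :=
  com_anti h.ac h.bc ((h.bQ h2 hi).add_right ((h.bZ h2 hi).smul_right _))
    (h.Qa.sub_right ((h.aZ h2 hi).smul_right _))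

theorem Rl.dP (h2 : (2 : k) ≠ 0) (hi : j0 ^ 2 = -1) : Commute d (a * b + b * a) :=
  com_anti rfl h.bd (h.bQ h2 hi)
    ((h.Qa.neg_right.add_right ((h.aX h2 hi).smul_right _)).add_right
      ((h.aZ h2 hi).smul_right _))

end

end Pool.Agent.V1150.TP
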