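import Pool.Agent.V1150.TP.B

/-!
# The doubling construction of a module
-/

set_option autoImplicit false

universe u v

namespace Pool.Agent.V1150.TP

section Dbl

variable {S : Type u} [CommRing S] {W : Type v} [AddCommGroup W] [Module S W]

/-- the new generator with square `f` -/
def dX (f : S) : Module.End S (W × W) where
  toFun w := (f • w.2, w.1)
  map_add' v w := by simp
  map_smul' c w := by simp [smul_smul, mul_comm]

/-- the old generator `T`, with anticommutator `g` with the new one -/
def dY (g : S) (T : Module.End S W) : Module.End S (W × W) where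
  toFun w := (T w.1 + g • w.2, -T w.2)
  map_add' v w := by
    simp only [Prod.fst_add, Prod.snd_add, map_add, smul_add, neg_add, Prod.mk_add_mk]
    congr 1; abel
  map_smul' c w := by
    simp only [Prod.smul_fst, Prod.smul_snd, map_smul, RingHom.id_apply, Prod.smul_mk, smul_add,
      smul_neg]
    congr 2
    rw [smul_smul, smul_smul, mul_comm]

theorem dX_apply (f : S) (w : W × W) : dX f w = (f • w.2, w.1) := rfl
theorem dY_apply (g : S) (T : Module.End S W) (w : W × W) :
    dY g T w = (T w.1 + g • w.2, -T w.2) := rfl

theorem dX_dX (f : S) : (dX f : Module.End S (W × W)) * dX f = f • 1 := by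
  ext w <;> simp [dX_apply]

theorem dY_dX (f g : S) (T : Module.End S W) :
    dY g T * dX f + dX f * dY g T = g • 1 := by
  apply LinearMap.ext
  intro w
  simp only [LinearMap.add_apply, Module.End.mul_apply, dX_apply, dY_apply, map_smul,
    LinearMap.smul_apply, Module.End.one_apply, Prod.mk_add_mk]
  apply Prod.ext
  · simp only [Prod.smul_fst, smul_neg]; abel
  · simp only [Prod.smul_snd]; abel

theorem dY_dY {h : S} (g g' : S) {T T' : Module.End S W} (hT : T * T' + T' * T = h • 1) :
    dY g T * dY g' T' + dY g' T' * dY g T = h • 1 := by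
  have hT' : ∀ w, T (T' w) + T' (T w) = h • w := fun w => by
    have := LinearMap.congr_fun hT w
    simpa using this
  apply LinearMap.ext
  intro w
  simp only [LinearMap.add_apply, Module.End.mul_apply, dY_apply, map_smul, map_add, map_neg,
    LinearMap.smul_apply, Module.End.one_apply, Prod.mk_add_mk]
  apply Prod.ext
  · simp only [Prod.smul_fst, smul_neg, ← hT' w.1]; abel
  · simp only [Prod.smul_snd, ← hT' w.2, neg_neg]

theorem dY_sq {h : S} (g : S) {T : Module.End S W} (hT : T * T = h • 1) :
    dY g T * dY g T = h • 1 := by
  have hT' : ∀ w, T (T w) = h • w := fun w => by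
    have := LinearMap.congr_fun hT w
    simpa using this
  apply LinearMap.ext
  intro w
  simp only [Module.End.mul_apply, dY_apply, map_smul, map_add, map_neg,
    LinearMap.smul_apply, Module.End.one_apply]
  apply Prod.ext
  · simp only [Prod.smul_fst, smul_neg, ← hT' w.1]; abel
  · simp only [Prod.smul_snd, ← hT' w.2, neg_neg]

/-- position according to the parity of `n` -/
def plc (n : ℕ) (w : W) : W × W := if n % 2 = 0 then (w, 0) else (0, w)

theorem plc_smul (n : ℕ) (s : S) (w : W) : plc n (s • w) = s • plc n w := by
  unfold plc; split_ifs <;> simp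

theorem plc_zero (n : ℕ) : plc n (0 : W) = 0 := by
  unfold plc; split_ifs <;> simp

theorem dX_pow (f : S) (n : ℕ) (w : W) : (dX f ^ n) (w, 0) = f ^ (n / 2) • plc n w := by
  induction n with
  | zero => simp [plc]
  | succ n ih =>
    rw [pow_succ', Module.End.mul_apply, ih, map_smul, dX_apply]
    unfold plc
    rcases Nat.even_or_odd' n with ⟨c, hc | hc⟩
    · have e1 : n % 2 = 0 := by omega
      have e2 : ¬ (n + 1) % 2 = 0 := by omega
      have e3 : (n + 1) / 2 = n / 2 := by omega
      rw [if_pos e1, if_neg e2, e3]
      simp
    · have e1 : ¬ n % 2 = 0 := by omega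
      have e2 : (n + 1) % 2 = 0 := by omega
      have e3 : (n + 1) / 2 = n / 2 + 1 := by omega
      rw [if_neg e1, if_pos e2, e3, pow_succ]
      simp [mul_smul]

theorem dY_pow (g : S) (T : Module.End S W) (n : ℕ) (w : W) :
    (dY g T ^ n) (w, 0) = ((T ^ n) w, 0) := by
  induction n with
  | zero => simp
  | succ n ih =>
    rw [pow_succ', Module.End.mul_apply, ih, dY_apply, pow_succ', Module.End.mul_apply]
    simp

/-- the component according to the parity of `n` -/
def pck (n : ℕ) (w : W × W) : W := if n % 2 = 0 then w.1 else w.2

theorem pck_plc (n m : ℕ) (w : W) : pck n (plc m w) = if n % 2 = m % 2 then w else 0 := by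
  unfold pck plc
  rcases Nat.mod_two_eq_zero_or_one n with h | h <;>
    rcases Nat.mod_two_eq_zero_or_one m with h' | h' <;> simp [h, h']

theorem pck_add (n : ℕ) (v w : W × W) : pck n (v + w) = pck n v + pck n w := by
  unfold pck; split_ifs <;> simp

theorem pck_zero (n : ℕ) : pck n (0 : W × W) = 0 := by
  unfold pck; split_ifs <;> simp

theorem pck_smul (n : ℕ) (s : S) (w : W × W) : pck n (s • w) = s • pck n w := by
  unfold pck; split_ifs <;> simp

end Dbl

end Pool.Agent.V1150.TP
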