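import Pool.Agent.V1150.TP.D

/-!
# The standard monomials are linearly independent
-/

set_option autoImplicit false

universe u

namespace Pool.Agent.V1150.TP

open Pool.Agent.W506.PM MvPolynomial

variable {k : Type u} [Field k]

/-- the polynomial ring -/
abbrev PS (k : Type u) [Field k] := MvPolynomial (Fin 4) k

/-- modules -/
abbrev W1 (k : Type u) [Field k] := PS k × PS k
/-- modules -/
abbrev W2 (k : Type u) [Field k] := W1 k × W1 k
/-- modules -/
abbrev W3 (k : Type u) [Field k] := W2 k × W2 k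
/-- modules -/
abbrev W4 (k : Type u) [Field k] := W3 k × W3 k

section Ops

variable (j0 : k)

/-- the square of `a` -/
noncomputable def sa : PS k := al j0 • X 0 + be j0 • X 1
/-- the square of `b` -/
noncomputable def sb : PS k := (2 : k) • X 0 + ga j0 • X 1
/-- anticommutator -/
noncomputable def sbd : PS k := -X 2 + (2 : k) • X 0 + ga j0 • X 1
/-- anticommutator -/
noncomputable def sac : PS k := X 2 + de j0 • X 1
/-- anticommutator -/
noncomputable def sbc : PS k := X 2 - (2 : k) • X 1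

/-- operators -/
noncomputable def b1 : Module.End (PS k) (W1 k) := dX (sb j0)
/-- operators -/
noncomputable def a2 : Module.End (PS k) (W2 k) := dX (sa j0)
/-- operators -/
noncomputable def b2 : Module.End (PS k) (W2 k) := dY (X 3) (b1 j0)
/-- operators -/
noncomputable def d3 : Module.End (PS k) (W3 k) := dX (X 1)
/-- operators -/
noncomputable def a3 : Module.End (PS k) (W3 k) := dY (X 2) (a2 j0)
/-- operators -/
noncomputable def b3 : Module.End (PS k) (W3 k) := dY (sbd j0) (b2 j0)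
/-- operators -/
noncomputable def c4 : Module.End (PS k) (W4 k) := dX (X 0)
/-- operators -/
noncomputable def d4 : Module.End (PS k) (W4 k) := dY 0 d3
/-- operators -/
noncomputable def a4 : Module.End (PS k) (W4 k) := dY (sac j0) (a3 j0)
/-- operators -/
noncomputable def b4 : Module.End (PS k) (W4 k) := dY sbc (b3 j0)

theorem c4_sq : (c4 : Module.End (PS k) (W4 k)) * c4 = (X 0 : PS k) • 1 := dX_dX _
theorem d4_sq : (d4 : Module.End (PS k) (W4 k)) * d4 = (X 1 : PS k) • 1 := dY_sq _ (dX_dX _)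
theorem a4_sq : a4 j0 * a4 j0 = sa j0 • 1 := dY_sq _ (dY_sq _ (dX_dX _))
theorem b4_sq : b4 j0 * b4 j0 = sb j0 • 1 := dY_sq _ (dY_sq _ (dY_sq _ (dX_dX _)))
theorem dc4 : (d4 : Module.End (PS k) (W4 k)) * c4 + c4 * d4 = (0 : PS k) • 1 := dY_dX _ _ _
theorem ac4 : a4 j0 * c4 + c4 * a4 j0 = sac j0 • 1 := dY_dX _ _ _
theorem bc4 : b4 j0 * c4 + c4 * b4 j0 = (sbc : PS k) • 1 := dY_dX _ _ _
theorem ad4 : a4 j0 * d4 + d4 * a4 j0 = (X 2 : PS k) • 1 := dY_dY _ _ (dY_dX _ _ _)
theorem bd4 : b4 j0 * d4 + d4 * b4 j0 = sbd j0 • 1 := dY_dY _ _ (dY_dX _ _ _)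
theorem ba4 : b4 j0 * a4 j0 + a4 j0 * b4 j0 = (X 3 : PS k) • 1 :=
  dY_dY _ _ (dY_dY _ _ (dY_dX _ _ _))

theorem ksm (s : k) (p : PS k) (T : Module.End (PS k) (W4 k)) : s • (p • T) = (s • p) • T := by
  rw [smul_assoc]

theorem rl_ops : Rl j0 c4 (a4 j0) d4 (b4 j0) where
  aa := by rw [a4_sq, c4_sq, d4_sq, ksm, ksm, ← add_smul, sa]
  bb := by rw [b4_sq, c4_sq, d4_sq, ksm, ksm, ← add_smul, sb]
  dc := by
    have := dc4 (k := k)
    rw [zero_smul] at this
    exact eq_neg_of_add_eq_zero_left this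
  ac := by rw [ac4, ad4, d4_sq, ksm, ← add_smul, sac]
  bc := by rw [bc4, ad4, d4_sq, ksm, sbc, sub_eq_add_neg, sub_eq_add_neg, add_smul, neg_smul]
  bd := by rw [bd4, ad4, d4_sq, c4_sq, ksm, ksm, sbd, add_smul, add_smul, neg_smul]

/-- the vacuum -/
noncomputable def vac : W4 k := (((((1 : PS k), 0), 0), 0), 0)

theorem exists_rep : ∃ F : TA j0 →ₐ[k] Module.End (PS k) (W4 k),
    F (gc j0) = c4 ∧ F (gaa j0) = a4 j0 ∧ F (gd j0) = d4 ∧ F (gb j0) = b4 j0 :=
  up_TA j0 _ _ _ _ _ (rl_ops j0)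

/-- the representation -/
noncomputable def FR : TA j0 →ₐ[k] Module.End (PS k) (W4 k) := (exists_rep j0).choose

theorem FR_c : FR j0 (gc j0) = c4 := (exists_rep j0).choose_spec.1
theorem FR_a : FR j0 (gaa j0) = a4 j0 := (exists_rep j0).choose_spec.2.1
theorem FR_d : FR j0 (gd j0) = d4 := (exists_rep j0).choose_spec.2.2.1
theorem FR_b : FR j0 (gb j0) = b4 j0 := (exists_rep j0).choose_spec.2.2.2

/-- central element -/
noncomputable def tQ : TA j0 := gaa j0 * gd j0 + gd j0 * gaa j0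
/-- central element -/
noncomputable def tP : TA j0 := gaa j0 * gb j0 + gb j0 * gaa j0

theorem FR_Q : FR j0 (tQ j0) = (X 2 : PS k) • 1 := by
  rw [tQ, map_add, map_mul, map_mul, FR_a, FR_d, ad4]

theorem FR_P : FR j0 (tP j0) = (X 3 : PS k) • 1 := by
  rw [tP, map_add, map_mul, map_mul, FR_a, FR_b, add_comm, ba4]

/-- the standard monomials -/
noncomputable def TB (i : Fin 4 → ℕ) : TA j0 :=
  gc j0 ^ i 0 * (gd j0 ^ i 1 * (tQ j0 ^ (i 2 / 2) * (tP j0 ^ (i 3 / 2) *
    (gaa j0 ^ (i 2 % 2) * gb j0 ^ (i 3 % 2)))))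

/-- the exponent vector -/
noncomputable def ex4 (i : Fin 4 → ℕ) : Fin 4 →₀ ℕ :=
  Finsupp.single 0 (i 0 / 2) + Finsupp.single 1 (i 1 / 2) + Finsupp.single 2 (i 2 / 2)
    + Finsupp.single 3 (i 3 / 2)

theorem smul_one_pow (p : PS k) (n : ℕ) (w : W4 k) :
    ((p • (1 : Module.End (PS k) (W4 k))) ^ n) w = p ^ n • w := by
  induction n with
  | zero => simp
  | succ n ih =>
    rw [pow_succ', Module.End.mul_apply, ih, LinearMap.smul_apply, Module.End.one_apply,
      smul_smul, pow_succ']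

theorem b4_pow (n : ℕ) (hn : n < 2) : (b4 j0 ^ n) vac = (((plc n (1 : PS k), 0), 0), 0) := by
  have h0 : n / 2 = 0 := by omega
  rw [vac, b4, dY_pow, b3, dY_pow, b2, dY_pow, b1, dX_pow, h0, pow_zero, one_smul]

theorem a4_pow (n : ℕ) (hn : n < 2) (w : W1 k) :
    (a4 j0 ^ n) (((w, 0), 0), 0) = ((plc n w, 0), 0) := by
  have h0 : n / 2 = 0 := by omega
  rw [a4, dY_pow, a3, dY_pow, a2, dX_pow, h0, pow_zero, one_smul]

theorem act_TB (i : Fin 4 → ℕ) :
    FR j0 (TB j0 i) vac = plc (i 0) (plc (i 1) (plc (i 2) (plc (i 3) (monomial (ex4 i) (1 : k))))) := by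
  have hm : ∀ n : ℕ, n % 2 % 2 = n % 2 := fun n => by omega
  have hp : ∀ {W : Type u} [AddCommGroup W] (n : ℕ) (w : W), plc (n % 2) w = plc n w := by
    intro W _ n w
    unfold plc
    rw [hm]
  rw [TB]
  simp only [map_mul, map_pow, FR_c, FR_a, FR_d, FR_b, FR_Q, FR_P, Module.End.mul_apply]
  rw [b4_pow j0 _ (Nat.mod_lt _ (by norm_num)), a4_pow j0 _ (Nat.mod_lt _ (by norm_num)), hp, hp,
    smul_one_pow, smul_one_pow]
  have e1 : (X 2 : PS k) ^ (i 2 / 2) • (X 3 : PS k) ^ (i 3 / 2) •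
      (((plc (i 2) (plc (i 3) (1 : PS k)), (0 : W2 k)), (0 : W3 k)) : W4 k)
      = ((((X 2 : PS k) ^ (i 2 / 2) * (X 3 : PS k) ^ (i 3 / 2)) •
        plc (i 2) (plc (i 3) (1 : PS k)), (0 : W2 k)), (0 : W3 k)) := by
    rw [smul_smul]
    simp only [Prod.smul_mk, smul_zero]
  have e2 : (monomial (ex4 i) (1 : k)) = ((X 0 : PS k) ^ (i 0 / 2) * (X 1 : PS k) ^ (i 1 / 2) *
      ((X 2 : PS k) ^ (i 2 / 2) * (X 3 : PS k) ^ (i 3 / 2))) • (1 : PS k) := by
    rw [ex4, ← mul_one (1 : k), ← monomial_mul, ← mul_one (1 : k), ← monomial_mul,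
      ← mul_one (1 : k), ← monomial_mul]
    simp only [mul_one, X_pow_eq_monomial, smul_eq_mul]
    ring
  rw [e1, d4, dY_pow, d3, dX_pow, c4, dX_pow, e2]
  simp only [plc_smul, smul_smul]
  congr 1
  ring

theorem key4 (i j : Fin 4 → ℕ) (h0 : i 0 % 2 = j 0 % 2) (h1 : i 1 % 2 = j 1 % 2)
    (h2 : i 2 % 2 = j 2 % 2) (h3 : i 3 % 2 = j 3 % 2) (h : ex4 i = ex4 j) : i = j := by
  have a0 : i 0 / 2 = j 0 / 2 := by simpa [ex4] using DFunLike.congr_fun h 0
  have a1 : i 1 / 2 = j 1 / 2 := by simpa [ex4] using DFunLike.congr_fun h 1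
  have a2 : i 2 / 2 = j 2 / 2 := by simpa [ex4] using DFunLike.congr_fun h 2
  have a3 : i 3 / 2 = j 3 / 2 := by simpa [ex4] using DFunLike.congr_fun h 3
  funext l
  fin_cases l
  · show i 0 = j 0; omega
  · show i 1 = j 1; omega
  · show i 2 = j 2; omega
  · show i 3 = j 3; omega

/-- the coordinate functionals -/
noncomputable def lm (i : Fin 4 → ℕ) : TA j0 →ₗ[k] k where
  toFun u := coeff (ex4 i) (pck (i 3) (pck (i 2) (pck (i 1) (pck (i 0) (FR j0 u vac)))))
  map_add' u v := by simp [pck_add]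
  map_smul' c u := by
    have e : (FR j0 (c • u)) vac = (C c : PS k) • (FR j0 u) vac := by
      rw [map_smul, LinearMap.smul_apply, ← algebraMap_eq, algebraMap_smul]
    rw [e, pck_smul, pck_smul, pck_smul, pck_smul]
    simp

theorem lm_TB (i j : Fin 4 → ℕ) : lm j0 i (TB j0 j) = if i = j then 1 else 0 := by
  show coeff (ex4 i) (pck (i 3) (pck (i 2) (pck (i 1) (pck (i 0) (FR j0 (TB j0 j) vac))))) = _
  rw [act_TB, pck_plc]
  by_cases h0 : i 0 % 2 = j 0 % 2
  · rw [if_pos h0, pck_plc]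
    by_cases h1 : i 1 % 2 = j 1 % 2
    · rw [if_pos h1, pck_plc]
      by_cases h2 : i 2 % 2 = j 2 % 2
      · rw [if_pos h2, pck_plc]
        by_cases h3 : i 3 % 2 = j 3 % 2
        · rw [if_pos h3, coeff_monomial]
          by_cases h : i = j
          · subst h; simp
          · rw [if_neg h, if_neg]
            intro h4
            exact h (key4 i j h0 h1 h2 h3 h4.symm)
        · rw [if_neg h3, coeff_zero, if_neg]
          rintro rfl; exact h3 rfl
      · rw [if_neg h2, pck_zero, coeff_zero, if_neg]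
        rintro rfl; exact h2 rfl
    · rw [if_neg h1, pck_zero, pck_zero, coeff_zero, if_neg]
      rintro rfl; exact h1 rfl
  · rw [if_neg h0, pck_zero, pck_zero, pck_zero, coeff_zero, if_neg]
    rintro rfl; exact h0 rfl

theorem linearIndependent_TB : LinearIndependent k (TB j0) := by
  rw [linearIndependent_iff']
  intro s g hg i hi'
  have := congrArg (lm j0 i) hg
  simpa [lm_TB, hi'] using this

end Ops

end Pool.Agent.V1150.TP
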