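import Pool.Agent.V1150.TP.E

/-!
# The standard monomials span
-/

set_option autoImplicit false

universe u

namespace Pool.Agent.V1150.TP

open Pool.Agent.W506.PM

variable {k : Type u} [Field k]

section Span

variable (j0 : k) (h2 : (2 : k) ≠ 0) (hi : j0 ^ 2 = -1)

/-- the span of the standard monomials -/
noncomputable def SPT : Submodule k (TA j0) := Submodule.span k (Set.range (TB j0))

/-- monomials with explicit exponents -/
noncomputable def ms (α β γ δ ε η : ℕ) : TA j0 :=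
  gc j0 ^ α * (gd j0 ^ β * (tQ j0 ^ γ * (tP j0 ^ δ * (gaa j0 ^ ε * gb j0 ^ η))))

theorem ms_mem (α β γ δ ε η : ℕ) (hε : ε < 2) (hη : η < 2) : ms j0 α β γ δ ε η ∈ SPT j0 := by
  apply Submodule.subset_span
  refine ⟨![α, β, 2 * γ + ε, 2 * δ + η], ?_⟩
  show gc j0 ^ α * (gd j0 ^ β * (tQ j0 ^ ((2 * γ + ε) / 2) * (tP j0 ^ ((2 * δ + η) / 2) *
    (gaa j0 ^ ((2 * γ + ε) % 2) * gb j0 ^ ((2 * δ + η) % 2))))) = _
  rw [show (2 * γ + ε) / 2 = γ by omega, show (2 * δ + η) / 2 = δ by omega,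
    show (2 * γ + ε) % 2 = ε by omega, show (2 * δ + η) % 2 = η by omega, ms]

theorem TB_eq_ms (i : Fin 4 → ℕ) :
    TB j0 i = ms j0 (i 0) (i 1) (i 2 / 2) (i 3 / 2) (i 2 % 2) (i 3 % 2) := rfl

theorem cl (x : TA j0) (hx : ∀ α β γ δ ε η : ℕ, ε < 2 → η < 2 → x * ms j0 α β γ δ ε η ∈ SPT j0)
    (z : TA j0) (hz : z ∈ SPT j0) : x * z ∈ SPT j0 := by
  induction hz using Submodule.span_induction with
  | mem z hz =>
    obtain ⟨i, rfl⟩ := hz
    rw [TB_eq_ms]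
    exact hx _ _ _ _ _ _ (Nat.mod_lt _ (by norm_num)) (Nat.mod_lt _ (by norm_num))
  | zero => rw [mul_zero]; exact Submodule.zero_mem _
  | add y z _ _ hy hz => rw [mul_add]; exact Submodule.add_mem _ hy hz
  | smul c y _ hy => rw [mul_smul_comm]; exact Submodule.smul_mem _ _ hy

theorem c_cl (z : TA j0) (hz : z ∈ SPT j0) : gc j0 * z ∈ SPT j0 := by
  refine cl j0 _ (fun α β γ δ ε η hε hη => ?_) z hz
  have : gc j0 * ms j0 α β γ δ ε η = ms j0 (α + 1) β γ δ ε η := by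
    rw [ms, ms, ← mul_assoc, ← pow_succ']
  rw [this]; exact ms_mem j0 _ _ _ _ _ _ hε hη

include h2 in
theorem d_c_pow (α : ℕ) : gd j0 * gc j0 ^ α = (-1 : k) ^ α • (gc j0 ^ α * gd j0) := by
  have h := rl_TA j0 h2
  induction α with
  | zero => simp
  | succ α ih =>
    rw [pow_succ (gc j0), ← mul_assoc, ih, smul_mul_assoc, mul_assoc _ (gd j0), h.dc, mul_neg,
      smul_neg, pow_succ (-1 : k), mul_smul, neg_smul, one_smul, smul_neg, mul_assoc]

include h2 in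
theorem d_cl (z : TA j0) (hz : z ∈ SPT j0) : gd j0 * z ∈ SPT j0 := by
  refine cl j0 _ (fun α β γ δ ε η hε hη => ?_) z hz
  have : gd j0 * ms j0 α β γ δ ε η = (-1 : k) ^ α • ms j0 α (β + 1) γ δ ε η := by
    rw [ms, ms, ← mul_assoc, d_c_pow j0 h2, smul_mul_assoc, mul_assoc, ← mul_assoc (gd j0),
      ← pow_succ']
  rw [this]; exact Submodule.smul_mem _ _ (ms_mem j0 _ _ _ _ _ _ hε hη)

include h2 hi in
theorem Q_cl (z : TA j0) (hz : z ∈ SPT j0) : tQ j0 * z ∈ SPT j0 := by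
  have h := rl_TA j0 h2
  refine cl j0 _ (fun α β γ δ ε η hε hη => ?_) z hz
  have h1 : tQ j0 * gc j0 ^ α = gc j0 ^ α * tQ j0 := ((h.cQ h2 hi).pow_left α).eq.symm
  have h3 : tQ j0 * gd j0 ^ β = gd j0 ^ β * tQ j0 := ((h.dQ h2 hi).pow_left β).eq.symm
  have : tQ j0 * ms j0 α β γ δ ε η = ms j0 α β (γ + 1) δ ε η := by
    rw [ms, ms, ← mul_assoc, h1, mul_assoc, ← mul_assoc (tQ j0), h3, mul_assoc,
      ← mul_assoc (tQ j0), ← pow_succ']
  rw [this]; exact ms_mem j0 _ _ _ _ _ _ hε hη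

include h2 hi in
theorem P_cl (z : TA j0) (hz : z ∈ SPT j0) : tP j0 * z ∈ SPT j0 := by
  have h := rl_TA j0 h2
  refine cl j0 _ (fun α β γ δ ε η hε hη => ?_) z hz
  have h1 : tP j0 * gc j0 ^ α = gc j0 ^ α * tP j0 := ((h.cP h2 hi).pow_left α).eq.symm
  have h3 : tP j0 * gd j0 ^ β = gd j0 ^ β * tP j0 := ((h.dP h2 hi).pow_left β).eq.symm
  have h4 : tP j0 * tQ j0 ^ γ = tQ j0 ^ γ * tP j0 :=
    (Commute.pow_left (((h.aP h2 hi).mul_left (h.dP h2 hi)).add_left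
      ((h.dP h2 hi).mul_left (h.aP h2 hi))) γ).eq.symm
  have : tP j0 * ms j0 α β γ δ ε η = ms j0 α β γ (δ + 1) ε η := by
    rw [ms, ms, ← mul_assoc, h1, mul_assoc, ← mul_assoc (tP j0), h3, mul_assoc,
      ← mul_assoc (tP j0), h4, mul_assoc, ← mul_assoc (tP j0), ← pow_succ']
  rw [this]; exact ms_mem j0 _ _ _ _ _ _ hε hη

theorem X_cl (z : TA j0) (hz : z ∈ SPT j0) : gc j0 * gc j0 * z ∈ SPT j0 := by
  rw [mul_assoc]; exact c_cl j0 _ (c_cl j0 _ hz)

include h2 in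
theorem Z_cl (z : TA j0) (hz : z ∈ SPT j0) : gd j0 * gd j0 * z ∈ SPT j0 := by
  rw [mul_assoc]; exact d_cl j0 h2 _ (d_cl j0 h2 _ hz)

include h2 in
/-- linear combinations of `c^2` and `d^2` -/
theorem XZ_cl (r s : k) (z : TA j0) (hz : z ∈ SPT j0) :
    (r • (gc j0 * gc j0) + s • (gd j0 * gd j0)) * z ∈ SPT j0 := by
  rw [add_mul, smul_mul_assoc, smul_mul_assoc]
  exact Submodule.add_mem _ (Submodule.smul_mem _ _ (X_cl j0 _ hz))
    (Submodule.smul_mem _ _ (Z_cl j0 h2 _ hz))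

include h2 in
/-- from the monomials without `c` and `d` to all -/
theorem y_cl (y A D : TA j0) (hA : y * gc j0 + gc j0 * y = A) (hD : y * gd j0 + gd j0 * y = D)
    (cA : ∀ z ∈ SPT j0, A * z ∈ SPT j0) (cD : ∀ z ∈ SPT j0, D * z ∈ SPT j0)
    (h0 : ∀ γ δ ε η : ℕ, ε < 2 → η < 2 → y * ms j0 0 0 γ δ ε η ∈ SPT j0)
    (z : TA j0) (hz : z ∈ SPT j0) : y * z ∈ SPT j0 := by
  refine cl j0 _ (fun α β γ δ ε η hε hη => ?_) z hz
  have e1 : y * gc j0 = A - gc j0 * y := by rw [← hA]; abel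
  have e2 : y * gd j0 = D - gd j0 * y := by rw [← hD]; abel
  have s1 : y * ms j0 0 β γ δ ε η ∈ SPT j0 := by
    induction β with
    | zero => exact h0 γ δ ε η hε hη
    | succ β ih =>
      have : y * ms j0 0 (β + 1) γ δ ε η
          = D * ms j0 0 β γ δ ε η - gd j0 * (y * ms j0 0 β γ δ ε η) := by
        rw [← mul_assoc (gd j0), ← sub_mul, ← e2, mul_assoc]
        congr 1
        rw [ms, ms, pow_zero, one_mul, one_mul, pow_succ', mul_assoc]
      rw [this]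
      exact Submodule.sub_mem _ (cD _ (ms_mem j0 _ _ _ _ _ _ hε hη)) (d_cl j0 h2 _ ih)
  induction α with
  | zero => exact s1
  | succ α ih =>
    have : y * ms j0 (α + 1) β γ δ ε η
        = A * ms j0 α β γ δ ε η - gc j0 * (y * ms j0 α β γ δ ε η) := by
      rw [← mul_assoc (gc j0), ← sub_mul, ← e1, mul_assoc]
      congr 1
      rw [ms, ms, pow_succ', mul_assoc]
    rw [this]
    exact Submodule.sub_mem _ (cA _ (ms_mem j0 _ _ _ _ _ _ hε hη)) (c_cl j0 _ ih)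

/-- the product of the powers of the two central elements -/
noncomputable def qp (γ δ : ℕ) : TA j0 := tQ j0 ^ γ * tP j0 ^ δ

theorem ms_qp (γ δ ε η : ℕ) : ms j0 0 0 γ δ ε η = qp j0 γ δ * (gaa j0 ^ ε * gb j0 ^ η) := by
  rw [ms, qp, pow_zero, pow_zero, one_mul, one_mul, mul_assoc]

include h2 hi in
theorem a_qp (γ δ : ℕ) (w : TA j0) : gaa j0 * (qp j0 γ δ * w) = qp j0 γ δ * (gaa j0 * w) := by
  have h := rl_TA j0 h2
  have h1 : Commute (gaa j0) (qp j0 γ δ) :=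
    Commute.mul_right (Commute.pow_right h.Qa γ) (Commute.pow_right (h.aP h2 hi) δ)
  rw [← mul_assoc, h1.eq, mul_assoc]

include h2 hi in
theorem b_qp (γ δ : ℕ) (w : TA j0) : gb j0 * (qp j0 γ δ * w) = qp j0 γ δ * (gb j0 * w) := by
  have h := rl_TA j0 h2
  have h1 : Commute (gb j0) (qp j0 γ δ) :=
    Commute.mul_right (Commute.pow_right (h.bQ h2 hi) γ) (Commute.pow_right (h.bP h2 hi) δ)
  rw [← mul_assoc, h1.eq, mul_assoc]

include h2 hi in
theorem a_base (γ δ ε η : ℕ) (hε : ε < 2) (hη : η < 2) :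
    gaa j0 * ms j0 0 0 γ δ ε η ∈ SPT j0 := by
  have h := rl_TA j0 h2
  interval_cases ε
  · have : gaa j0 * ms j0 0 0 γ δ 0 η = ms j0 0 0 γ δ 1 η := by
      rw [ms_qp, ms_qp, a_qp j0 h2 hi, pow_zero, one_mul, pow_one]
    rw [this]; exact ms_mem j0 _ _ _ _ _ _ (by norm_num) hη
  · have : gaa j0 * ms j0 0 0 γ δ 1 η = gaa j0 * gaa j0 * ms j0 0 0 γ δ 0 η := by
      rw [ms_qp, ms_qp, mul_assoc, a_qp j0 h2 hi, a_qp j0 h2 hi, a_qp j0 h2 hi, pow_zero,
        one_mul, pow_one]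
    rw [this, h.aa]
    exact XZ_cl j0 h2 _ _ _ (ms_mem j0 _ _ _ _ _ _ (by norm_num) hη)

include h2 hi in
theorem b_base (γ δ ε η : ℕ) (hε : ε < 2) (hη : η < 2) :
    gb j0 * ms j0 0 0 γ δ ε η ∈ SPT j0 := by
  have h := rl_TA j0 h2
  have hb0 : ∀ η < 2, gb j0 * ms j0 0 0 γ δ 0 η ∈ SPT j0 := by
    intro η hη
    interval_cases η
    · have : gb j0 * ms j0 0 0 γ δ 0 0 = ms j0 0 0 γ δ 0 1 := by
        rw [ms_qp, ms_qp, b_qp j0 h2 hi, pow_zero, one_mul, pow_zero, mul_one, one_mul, pow_one]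
      rw [this]; exact ms_mem j0 _ _ _ _ _ _ (by norm_num) (by norm_num)
    · have : gb j0 * ms j0 0 0 γ δ 0 1 = gb j0 * gb j0 * ms j0 0 0 γ δ 0 0 := by
        rw [ms_qp, ms_qp, mul_assoc, b_qp j0 h2 hi, b_qp j0 h2 hi, b_qp j0 h2 hi, pow_zero,
          one_mul, pow_one, pow_zero, one_mul, mul_one]
      rw [this, h.bb]
      exact XZ_cl j0 h2 _ _ _ (ms_mem j0 _ _ _ _ _ _ (by norm_num) (by norm_num))
  interval_cases ε
  · exact hb0 η hη
  · have e0 : ms j0 0 0 γ δ 1 η = gaa j0 * ms j0 0 0 γ δ 0 η := by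
      rw [ms_qp, ms_qp, a_qp j0 h2 hi, pow_zero, one_mul, pow_one]
    have e1 : gb j0 * (gaa j0 * ms j0 0 0 γ δ 0 η)
        = tP j0 * ms j0 0 0 γ δ 0 η - gaa j0 * (gb j0 * ms j0 0 0 γ δ 0 η) := by
      rw [tP, add_mul, mul_assoc, mul_assoc]; abel
    rw [e0, e1]
    refine Submodule.sub_mem _ (P_cl j0 h2 hi _ (ms_mem j0 _ _ _ _ _ _ (by norm_num) hη)) ?_
    interval_cases η
    · have : gb j0 * ms j0 0 0 γ δ 0 0 = ms j0 0 0 γ δ 0 1 := by
        rw [ms_qp, ms_qp, b_qp j0 h2 hi, pow_zero, one_mul, pow_zero, mul_one, one_mul, pow_one]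
      rw [this]
      exact a_base j0 h2 hi _ _ _ _ (by norm_num) (by norm_num)
    · have : gb j0 * ms j0 0 0 γ δ 0 1 = gb j0 * gb j0 * ms j0 0 0 γ δ 0 0 := by
        rw [ms_qp, ms_qp, mul_assoc, b_qp j0 h2 hi, b_qp j0 h2 hi, b_qp j0 h2 hi, pow_zero,
          one_mul, pow_one, pow_zero, one_mul, mul_one]
      have hc : Commute (gaa j0) (gb j0 * gb j0) := by
        rw [h.bb]
        exact ((h.aX h2 hi).smul_right _).add_right ((h.aZ h2 hi).smul_right _)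
      rw [this, ← mul_assoc, hc.eq, mul_assoc, h.bb]
      exact XZ_cl j0 h2 _ _ _ (a_base j0 h2 hi _ _ _ _ (by norm_num) (by norm_num))

include h2 hi in
theorem a_cl (z : TA j0) (hz : z ∈ SPT j0) : gaa j0 * z ∈ SPT j0 := by
  have h := rl_TA j0 h2
  refine y_cl j0 h2 (gaa j0) _ _ h.ac rfl ?_ (Q_cl j0 h2 hi) (a_base j0 h2 hi) z hz
  intro w hw
  rw [add_mul, smul_mul_assoc]
  exact Submodule.add_mem _ (Q_cl j0 h2 hi w hw) (Submodule.smul_mem _ _ (Z_cl j0 h2 w hw))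

include h2 hi in
theorem b_cl (z : TA j0) (hz : z ∈ SPT j0) : gb j0 * z ∈ SPT j0 := by
  have h := rl_TA j0 h2
  refine y_cl j0 h2 (gb j0) _ _ h.bc h.bd ?_ ?_ (b_base j0 h2 hi) z hz
  · intro w hw
    rw [sub_mul, smul_mul_assoc]
    exact Submodule.sub_mem _ (Q_cl j0 h2 hi w hw) (Submodule.smul_mem _ _ (Z_cl j0 h2 w hw))
  · intro w hw
    rw [add_assoc, add_mul, neg_mul]
    exact Submodule.add_mem _ (Submodule.neg_mem _ (Q_cl j0 h2 hi w hw)) (XZ_cl j0 h2 _ _ w hw)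

include h2 hi in
theorem SPT_top : SPT j0 = ⊤ := by
  rw [eq_top_iff]
  intro u _
  have hu : u ∈ Algebra.adjoin k (Set.range (gx k mu1 (MT j0))) := by
    rw [adjoin_TA j0 h2]; trivial
  have key : ∀ z ∈ SPT j0, u * z ∈ SPT j0 := by
    induction hu using Algebra.adjoin_induction with
    | mem y hy =>
      obtain ⟨j, rfl⟩ := hy
      fin_cases j
      · exact c_cl j0
      · exact a_cl j0 h2 hi
      · exact d_cl j0 h2
      · exact b_cl j0 h2 hi
    | algebraMap c =>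
      intro z hz
      rw [← Algebra.smul_def]; exact Submodule.smul_mem _ _ hz
    | add y z _ _ hy hz =>
      intro w hw
      rw [add_mul]; exact Submodule.add_mem _ (hy trivial w hw) (hz trivial w hw)
    | mul y z _ _ hy hz =>
      intro w hw
      rw [mul_assoc]; exact hy trivial _ (hz trivial w hw)
  have h1 : (1 : TA j0) ∈ SPT j0 := by
    have := ms_mem j0 0 0 0 0 0 0 (by norm_num) (by norm_num)
    simpa [ms] using this
  have := key 1 h1
  rwa [mul_one] at this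

/-- the basis of standard monomials -/
noncomputable def tbas : Module.Basis (Fin 4 → ℕ) k (TA j0) :=
  Module.Basis.mk (linearIndependent_TB j0) (SPT_top j0 h2 hi).ge

theorem tbas_apply (i : Fin 4 → ℕ) : tbas j0 h2 hi i = TB j0 i :=
  Module.Basis.mk_apply (linearIndependent_TB j0) (SPT_top j0 h2 hi).ge i

end Span

end Pool.Agent.V1150.TP
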