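import Pool.Agent.V1150.TP.F
import Pool.Agent.W506.PM.R

/-!
# The graded pieces of the algebra, and the regular sequence `c^2, d^2`
-/

set_option autoImplicit false

universe u

namespace Pool.Agent.V1150.TP

open Pool.Agent.W506.PM

variable {k : Type u} [Field k]

section

variable (j0 : k) (h2 : (2 : k) ≠ 0) (hi : j0 ^ 2 = -1)

/-- the grading of our algebra -/
noncomputable abbrev gT : ℕ → Submodule k (TA j0) := ggr k mu1 (MT j0)

theorem gmulT {d e : ℕ} {x y : TA j0} (hx : x ∈ gT j0 d) (hy : y ∈ gT j0 e) :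
    x * y ∈ gT j0 (d + e) := SetLike.mul_mem_graded hx hy

theorem tQ_mem : tQ j0 ∈ gT j0 2 := by
  have h1 : gaa j0 * gd j0 ∈ gT j0 (1 + 1) :=
    gmulT j0 (gx_mem mu1 (MT j0) 1) (gx_mem mu1 (MT j0) 2)
  have h2 : gd j0 * gaa j0 ∈ gT j0 (1 + 1) :=
    gmulT j0 (gx_mem mu1 (MT j0) 2) (gx_mem mu1 (MT j0) 1)
  unfold tQ
  exact Submodule.add_mem _ h1 h2

theorem tP_mem : tP j0 ∈ gT j0 2 := by
  have h1 : gaa j0 * gb j0 ∈ gT j0 (1 + 1) :=
    gmulT j0 (gx_mem mu1 (MT j0) 1) (gx_mem mu1 (MT j0) 3)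
  have h2 : gb j0 * gaa j0 ∈ gT j0 (1 + 1) :=
    gmulT j0 (gx_mem mu1 (MT j0) 3) (gx_mem mu1 (MT j0) 1)
  unfold tP
  exact Submodule.add_mem _ h1 h2

theorem TB_mem_gT (i : Fin 4 → ℕ) : TB j0 i ∈ gT j0 (deg4 i) := by
  have h0 : gc j0 ^ i 0 ∈ gT j0 (i 0) := by
    simpa using SetLike.pow_mem_graded (A := gT j0) (i 0) (gx_mem mu1 (MT j0) 0)
  have h1 : gd j0 ^ i 1 ∈ gT j0 (i 1) := by
    simpa using SetLike.pow_mem_graded (A := gT j0) (i 1) (gx_mem mu1 (MT j0) 2)
  have h2 : tQ j0 ^ (i 2 / 2) ∈ gT j0 (i 2 / 2 * 2) := by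
    simpa using SetLike.pow_mem_graded (A := gT j0) (i 2 / 2) (tQ_mem j0)
  have h3 : tP j0 ^ (i 3 / 2) ∈ gT j0 (i 3 / 2 * 2) := by
    simpa using SetLike.pow_mem_graded (A := gT j0) (i 3 / 2) (tP_mem j0)
  have h4 : gaa j0 ^ (i 2 % 2) ∈ gT j0 (i 2 % 2) := by
    simpa using SetLike.pow_mem_graded (A := gT j0) (i 2 % 2) (gx_mem mu1 (MT j0) 1)
  have h5 : gb j0 ^ (i 3 % 2) ∈ gT j0 (i 3 % 2) := by
    simpa using SetLike.pow_mem_graded (A := gT j0) (i 3 % 2) (gx_mem mu1 (MT j0) 3)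
  have h6 := gmulT j0 h0 (gmulT j0 h1 (gmulT j0 h2 (gmulT j0 h3 (gmulT j0 h4 h5))))
  have e : i 0 + (i 1 + (i 2 / 2 * 2 + (i 3 / 2 * 2 + (i 2 % 2 + i 3 % 2)))) = deg4 i := by
    unfold deg4; omega
  rw [e] at h6
  exact h6

theorem proj_TB (e : ℕ) (j : Fin 4 → ℕ) : GradedAlgebra.proj (gT j0) e (TB j0 j)
    = if deg4 j = e then TB j0 j else 0 := by
  rw [GradedAlgebra.proj_apply]
  split_ifs with h
  · subst h
    exact DirectSum.decompose_of_mem_same _ (TB_mem_gT j0 j)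
  · exact DirectSum.decompose_of_mem_ne _ (TB_mem_gT j0 j) h

theorem repr_zero {d : ℕ} {x : TA j0} (hx : x ∈ gT j0 d) (i : Fin 4 → ℕ)
    (hid : deg4 i ≠ d) : (tbas j0 h2 hi).repr x i = 0 := by
  have key : ((tbas j0 h2 hi).coord i).comp (GradedAlgebra.proj (gT j0) d) = 0 := by
    apply (tbas j0 h2 hi).ext
    intro j
    rw [LinearMap.comp_apply, tbas_apply, proj_TB]
    split_ifs with h
    · rw [← tbas_apply j0 h2 hi, Module.Basis.coord_apply, Module.Basis.repr_self,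
        Finsupp.single_eq_of_ne]
      · rfl
      · rintro rfl; exact hid h
    · rw [map_zero]; rfl
  have h1 := LinearMap.congr_fun key x
  rw [LinearMap.comp_apply, GradedAlgebra.proj_apply, DirectSum.decompose_of_mem_same _ hx] at h1
  exact h1

include h2 hi in
theorem gT_eq_span (d : ℕ) :
    gT j0 d = Submodule.span k (Set.range fun i : mon d => TB j0 i) := by
  apply le_antisymm
  · intro x hx
    rw [← (tbas j0 h2 hi).linearCombination_repr x, Finsupp.linearCombination_apply, Finsupp.sum]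
    apply Submodule.sum_mem
    intro i hi'
    apply Submodule.smul_mem
    rw [tbas_apply]
    have hid : deg4 i = d := by
      by_contra h
      exact (Finsupp.mem_support_iff.1 hi') (repr_zero j0 h2 hi hx i h)
    exact Submodule.subset_span ⟨⟨i, (mem_mon d i).2 hid⟩, rfl⟩
  · rw [Submodule.span_le]
    rintro _ ⟨⟨i, hi'⟩, rfl⟩
    have := TB_mem_gT j0 i
    rw [(mem_mon d i).1 hi'] at this
    exact this

include h2 hi in
theorem finrank_gT (d : ℕ) : Module.finrank k (gT j0 d) = (d + 3).choose 3 := by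
  rw [gT_eq_span j0 h2 hi, finrank_span_eq_card]
  · rw [Fintype.card_coe, card_mon]
  · exact (linearIndependent_TB j0).comp _ Subtype.val_injective

include h2 hi in
theorem finite_gT (d : ℕ) : Module.Finite k (gT j0 d) := by
  rw [gT_eq_span j0 h2 hi]
  exact Module.Finite.span_of_finite k (Set.finite_range _)

include h2 hi in
theorem conn_gT : IsConnectedGraded (gT j0) where
  graded := inferInstance
  internal := DirectSum.Decomposition.isInternal _
  connected := by rw [finrank_gT j0 h2 hi]; rfl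
  finite := finite_gT j0 h2 hi

theorem X_mul_TB (i : Fin 4 → ℕ) : gc j0 * gc j0 * TB j0 i = TB j0 (sh0 i) := by
  show gc j0 * gc j0 * TB j0 i = gc j0 ^ (i 0 + 2) * (gd j0 ^ i 1 * (tQ j0 ^ (i 2 / 2) *
    (tP j0 ^ (i 3 / 2) * (gaa j0 ^ (i 2 % 2) * gb j0 ^ (i 3 % 2)))))
  rw [TB, add_comm (i 0) 2, pow_add, sq]
  simp only [mul_assoc]

include h2 in
theorem Z_mul_TB (i : Fin 4 → ℕ) : gd j0 * gd j0 * TB j0 i = TB j0 (sh1 i) := by
  show gd j0 * gd j0 * TB j0 i = gc j0 ^ (i 0) * (gd j0 ^ (i 1 + 2) * (tQ j0 ^ (i 2 / 2) *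
    (tP j0 ^ (i 3 / 2) * (gaa j0 ^ (i 2 % 2) * gb j0 ^ (i 3 % 2)))))
  have h1 : gd j0 * gd j0 * gc j0 ^ i 0 = gc j0 ^ i 0 * (gd j0 * gd j0) :=
    (((rl_TA j0 h2).cZ).pow_left (i 0)).eq.symm
  rw [TB, ← mul_assoc, h1, add_comm (i 1) 2, pow_add, sq]
  simp only [mul_assoc]

include h2 hi in
/-- `c^2` is central -/
theorem X_central (u : TA j0) : Commute u (gc j0 * gc j0) := by
  have h := rl_TA j0 h2
  have hu : u ∈ Algebra.adjoin k (Set.range (gx k mu1 (MT j0))) := by
    rw [adjoin_TA j0 h2]; trivial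
  induction hu using Algebra.adjoin_induction with
  | mem y hy =>
    obtain ⟨j, rfl⟩ := hy
    fin_cases j
    · exact cXX _
    · exact h.aX h2 hi
    · exact h.dX
    · exact h.bX h2 hi
  | algebraMap c => exact Algebra.commute_algebraMap_left _ _
  | add y z _ _ hy hz => exact hy.add_left hz
  | mul y z _ _ hy hz => exact hy.mul_left hz

include h2 hi in
/-- `d^2` is central -/
theorem Z_central (u : TA j0) : Commute u (gd j0 * gd j0) := by
  have h := rl_TA j0 h2
  have hu : u ∈ Algebra.adjoin k (Set.range (gx k mu1 (MT j0))) := by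
    rw [adjoin_TA j0 h2]; trivial
  induction hu using Algebra.adjoin_induction with
  | mem y hy =>
    obtain ⟨j, rfl⟩ := hy
    fin_cases j
    · exact h.cZ
    · exact h.aZ h2 hi
    · exact cXX _
    · exact h.bZ h2 hi
  | algebraMap c => exact Algebra.commute_algebraMap_left _ _
  | add y z _ _ hy hz => exact hy.add_left hz
  | mul y z _ _ hy hz => exact hy.mul_left hz

include h2 hi in
/-- `a d + d a` is central -/
theorem Q_central (u : TA j0) : Commute u (gaa j0 * gd j0 + gd j0 * gaa j0) := by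
  have h := rl_TA j0 h2
  have hu : u ∈ Algebra.adjoin k (Set.range (gx k mu1 (MT j0))) := by
    rw [adjoin_TA j0 h2]; trivial
  induction hu using Algebra.adjoin_induction with
  | mem y hy =>
    obtain ⟨j, rfl⟩ := hy
    fin_cases j
    · exact h.cQ h2 hi
    · exact h.Qa
    · exact h.dQ h2 hi
    · exact h.bQ h2 hi
  | algebraMap c => exact Algebra.commute_algebraMap_left _ _
  | add y z _ _ hy hz => exact hy.add_left hz
  | mul y z _ _ hy hz => exact hy.mul_left hz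

include h2 hi in
/-- `a b + b a` is central -/
theorem P_central (u : TA j0) : Commute u (gaa j0 * gb j0 + gb j0 * gaa j0) := by
  have h := rl_TA j0 h2
  have hu : u ∈ Algebra.adjoin k (Set.range (gx k mu1 (MT j0))) := by
    rw [adjoin_TA j0 h2]; trivial
  induction hu using Algebra.adjoin_induction with
  | mem y hy =>
    obtain ⟨j, rfl⟩ := hy
    fin_cases j
    · exact h.cP h2 hi
    · exact h.aP h2 hi
    · exact h.dP h2 hi
    · exact h.bP h2 hi
  | algebraMap c => exact Algebra.commute_algebraMap_left _ _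
  | add y z _ _ hy hz => exact hy.add_left hz
  | mul y z _ _ hy hz => exact hy.mul_left hz

include h2 hi in
theorem regL : (∀ h : TA j0, gc j0 * gc j0 * h = 0 → h = 0) ∧
    (∀ h h' : TA j0, gd j0 * gd j0 * h = gc j0 * gc j0 * h' → ∃ h'', h = gc j0 * gc j0 * h'') := by
  have hT1 : ∀ i, (LinearMap.mulLeft k (gc j0 * gc j0)) (tbas j0 h2 hi i)
      = (1 : k) • tbas j0 h2 hi (sh0 i) := by
    intro i; rw [tbas_apply, tbas_apply, one_smul]; exact X_mul_TB j0 i
  have hT2 : ∀ i, (LinearMap.mulLeft k (gd j0 * gd j0)) (tbas j0 h2 hi i)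
      = (1 : k) • tbas j0 h2 hi (sh1 i) := by
    intro i; rw [tbas_apply, tbas_apply, one_smul]; exact Z_mul_TB j0 h2 i
  constructor
  · intro h h0
    exact shift_inj (tbas j0 h2 hi) _ sh0 sh0_inj (fun _ => 1) (fun _ => one_ne_zero) hT1 h h0
  · intro h h' h0
    exact shift_reg (tbas j0 h2 hi) _ _ sh0 sh1 sh1_inj (fun _ => 1) (fun _ => 1)
      (fun _ => one_ne_zero) (fun _ => one_ne_zero) hT1 hT2 sh_sh h h' h0

include h2 hi in
theorem regR : (∀ h : TA j0, h * (gc j0 * gc j0) = 0 → h = 0) ∧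
    (∀ h h' : TA j0, h * (gd j0 * gd j0) = h' * (gc j0 * gc j0) →
      ∃ h'', h = h'' * (gc j0 * gc j0)) := by
  constructor
  · intro h h0
    rw [(X_central j0 h2 hi h).eq] at h0
    exact (regL j0 h2 hi).1 h h0
  · intro h h' h0
    rw [(Z_central j0 h2 hi h).eq, (X_central j0 h2 hi h').eq] at h0
    obtain ⟨h'', e⟩ := (regL j0 h2 hi).2 h h' h0
    exact ⟨h'', by rw [e, (X_central j0 h2 hi h'').eq]⟩

end

end Pool.Agent.V1150.TP
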