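import Pool.Agent.V1150.TP.A

/-!
# The composite of the two middle maps vanishes
-/

set_option autoImplicit false

universe u

namespace Pool.Agent.V1150.TP

variable {k : Type u} [Field k] {E : Type u} [Ring E] [Algebra k E]

/-- left factors, which are also the right factors -/
def mT (j0 : k) (c a d b : E) : Fin 6 → Fin 4 → E :=
  ![![-(al j0 • c), a, -(be j0 • d), 0], ![-((2 : k) • c), 0, -(ga j0 • d), b],
    ![d, 0, c, 0], ![a, c - d, -a - de j0 • d, 0], ![b, -d, -a + (2 : k) • d, c],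
    ![-((2 : k) • c), d, a - ga j0 • d + b, d]]

/-- the scalar matrix `G` -/
def G6 (j0 : k) : Fin 6 → Fin 6 → k :=
  ![![3 - j0, 0, -7 + 9 * j0, 4 - 3 * j0, 0, 0],
    ![0, -1 + 3 * j0, 4 - 2 * j0, 0, -1 - 2 * j0, -1 - 2 * j0],
    ![-7 + 9 * j0, 4 - 2 * j0, 7 - 33 * j0, -6 + 17 * j0, -6 + 8 * j0, -6 - 2 * j0],
    ![4 - 3 * j0, 0, -6 + 17 * j0, 7 - 9 * j0, 0, 0],
    ![0, -1 - 2 * j0, -6 + 8 * j0, 0, 4 - 2 * j0, 4 - 2 * j0],
    ![0, -1 - 2 * j0, -6 - 2 * j0, 0, 4 - 2 * j0, 4 - 2 * j0]]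

/-- ten times the inverse of `G` -/
def H6 (j0 : k) : Fin 6 → Fin 6 → k :=
  ![![10 + 2 * j0, 0, 0, -4 - 2 * j0, -2 - 3 * j0, 2 + 3 * j0],
    ![0, -4 * j0, 0, 0, 2 - 2 * j0, 2 * j0],
    ![0, 0, 0, 0, -j0, j0],
    ![-4 - 2 * j0, 0, 0, 2 + 2 * j0, 0, 0],
    ![-2 - 3 * j0, 2 - 2 * j0, -j0, 0, 2, 0],
    ![2 + 3 * j0, 2 * j0, j0, 0, 0, 2 * j0]]

theorem H6_G6 (j0 : k) (hi : j0 ^ 2 = -1) (i j : Fin 6) :
    ∑ l, H6 j0 i l * G6 j0 l j = if i = j then 10 else 0 := by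
  fin_cases i <;> fin_cases j <;> simp [Fin.sum_univ_six, H6, G6]
  all_goals first
    | done
    | ring1
    | (ring_nf; rw [hi]; ring1)
    | (ring_nf; rw [hi]; norm_num)

theorem comp_T (j0 : k) (hi : j0 ^ 2 = -1) {c a d b : E} (h : Rl j0 c a d b) (j l : Fin 4) :
    ∑ i, (∑ i', G6 j0 i i' • mT j0 c a d b i' j) * mT j0 c a d b i l = 0 := by
  have haa := h.aa
  have hbb := h.bb
  have hdc := h.dc
  have hac : a * c = a * d + d * a + de j0 • (d * d) - c * a := by rw [← h.ac]; abel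
  have hbc : b * c = a * d + d * a - (2 : k) • (d * d) - c * b := by rw [← h.bc]; abel
  have hbd : b * d = -(a * d + d * a) + (2 : k) • (c * c) + ga j0 • (d * d) - d * b := by
    rw [← h.bd]; abel
  have h3 : j0 ^ 3 = -j0 := by linear_combination j0 * hi
  have h4 : j0 ^ 4 = 1 := by linear_combination (j0 ^ 2 - 1) * hi
  have h5 : j0 ^ 5 = j0 := by linear_combination (j0 ^ 3 - j0) * hi
  fin_cases j <;> fin_cases l <;>
    simp only [Fin.sum_univ_six, G6, mT, Fin.isValue, Fin.zero_eta, Fin.mk_one, Fin.reduceFinMk,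
      Matrix.cons_val, Matrix.cons_val_zero, Matrix.cons_val_one, zero_smul, smul_zero, add_zero,
      zero_add, mul_zero, zero_mul, smul_add, smul_sub, smul_neg, mul_sub, sub_mul, mul_add,
      add_mul, neg_mul, mul_neg, smul_mul_assoc, mul_smul_comm, smul_smul,
      haa, hbb, hdc, hac, hbc, hbd]
  all_goals
    match_scalars <;>
    first
    | ring1
    | (simp only [al, be, ga, de]; ring_nf; simp only [hi, h3, h4, h5]; ring1)
    | (simp only [al, be, ga, de]; ring_nf; simp only [hi, h3, h4, h5]; norm_num)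

end Pool.Agent.V1150.TP
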