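import Pool.Agent.V1150.TP.H
import Pool.Agent.V1150.TP.K
import Pool.Agent.W506.PM.K3

/-!
# The Koszul complexes of the algebra are exact on both sides
-/

set_option autoImplicit false

universe u

namespace Pool.Agent.V1150.TP

open Pool.Agent.W506.PM

variable {k : Type u} [Field k]

section

variable (j0 : k) (h2 : (2 : k) ≠ 0) (hi : j0 ^ 2 = -1)

/-- the generators -/
noncomputable abbrev tg : Fin 4 → TA j0 := gx k mu1 (MT j0)

/-- the matrix `m` -/
noncomputable def tm (i : Fin 6) (l : Fin 4) : TA j0 :=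
  mT j0 (gc j0) (gaa j0) (gd j0) (gb j0) i l

/-- the matrix `m'` -/
noncomputable def tm' (i : Fin 6) (l : Fin 4) : TA j0 := ∑ i', G6 j0 i i' • tm j0 i' l

theorem rowL_T (i : Fin 6) (l : Fin 4) : rowL (tg j0) (rt j0) i l = tm j0 i l := by
  fin_cases i <;> fin_cases l <;>
    simp [rowL, tm, mT, rt, Fin.sum_univ_four, sub_eq_add_neg, add_comm, add_left_comm]

theorem rt_symm (i : Fin 6) (j l : Fin 4) : rt j0 i j l = rt j0 i l j := by
  fin_cases i <;> fin_cases j <;> fin_cases l <;> rfl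

theorem rowR_T (i : Fin 6) (l : Fin 4) :
    rowL (fun j => MulOpposite.op (tg j0 j)) (fun i j l => rt j0 i l j) i l
      = MulOpposite.op (tm j0 i l) := by
  rw [← rowL_T, rowL, rowL, Finset.op_sum]
  refine Finset.sum_congr rfl fun j _ => ?_
  rw [rt_symm, MulOpposite.op_smul]

include h2 in
theorem tm_x (i : Fin 6) : ∑ j, tm j0 i j * tg j0 j = 0 := by
  have := rowL_mul (isPres_TA j0 h2) i
  simpa only [rowL_T] using this

include h2 in
theorem x_tm (i : Fin 6) : ∑ j, tg j0 j * tm j0 i j = 0 := by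
  have := rowL_mul (isPres_TA j0 h2).op i
  simp only [rowR_T, ← MulOpposite.op_mul, ← Finset.op_sum] at this
  exact MulOpposite.op_injective this

include h2 in
theorem x_tm' (i : Fin 6) : ∑ j, tg j0 j * tm' j0 i j = 0 := by
  simp only [tm', Finset.mul_sum, mul_smul_comm]
  rw [Finset.sum_comm]
  apply Finset.sum_eq_zero
  intro i' _
  rw [← Finset.smul_sum, x_tm j0 h2, smul_zero]

include h2 hi in
theorem tm'_tm (j l : Fin 4) : ∑ i, tm' j0 i j * tm j0 i l = 0 :=
  comp_T j0 hi (rl_TA j0 h2) j l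

include h2 in
theorem exL1T (f : Fin 4 → TA j0) (hf : ∑ j, f j * tg j0 j = 0) :
    ∃ g : Fin 6 → TA j0, ∀ j, f j = ∑ i, g i * tm j0 i j := by
  obtain ⟨g, hg⟩ := ex1_of_pres (isPres_TA j0 h2) f hf
  refine ⟨g, fun j => ?_⟩
  rw [hg j]
  simp only [rowL_T]

include h2 hi in
theorem exR1T (hc : (10 : k) ≠ 0)
    (b : Fin 4 → TA j0) (hb : ∑ j, tg j0 j * b j = 0) :
    ∃ c : Fin 6 → TA j0, ∀ j, b j = ∑ i, tm' j0 i j * c i := by
  obtain ⟨g, hg⟩ := ex1_of_pres (isPres_TA j0 h2).op (fun j => MulOpposite.op (b j)) (by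
    simp only [← MulOpposite.op_mul, ← Finset.op_sum]
    rw [show (∑ i, gx k mu1 (MT j0) i * b i) = 0 from hb, MulOpposite.op_zero])
  have hn : ∀ j, b j = ∑ i, tm j0 i j * (g i).unop := by
    intro j
    have := congrArg MulOpposite.unop (hg j)
    simpa only [rowR_T, MulOpposite.unop_op, Finset.unop_sum, MulOpposite.unop_mul] using this
  have hH : ∀ i j, tm j0 i j = ∑ l, ((10 : k)⁻¹ * H6 j0 i l) • tm' j0 l j := by
    intro i j
    simp only [tm', Finset.smul_sum, smul_smul]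
    rw [Finset.sum_comm]
    simp only [← Finset.sum_smul, mul_assoc, ← Finset.mul_sum]
    simp only [H6_G6 j0 hi]
    rw [Finset.sum_eq_single i]
    · rw [if_pos rfl, inv_mul_cancel₀ hc, one_smul]
    · intro l _ hl
      rw [if_neg (Ne.symm hl), mul_zero, zero_smul]
    · simp
  refine ⟨fun l => ∑ i, ((10 : k)⁻¹ * H6 j0 i l) • (g i).unop, fun j => ?_⟩
  rw [hn j]
  simp only [hH, Finset.sum_mul, Finset.mul_sum, smul_mul_assoc, mul_smul_comm]
  rw [Finset.sum_comm]

include h2 hi in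
theorem x_XT (j : Fin 4) : tg j0 j * (tg j0 0 * tg j0 0)
    = (fun _ => (1 : k)) j • (tg j0 0 * tg j0 0 * tg j0 j) := by
  rw [one_smul]
  exact (X_central j0 h2 hi (tg j0 j)).eq

include h2 hi in
theorem XZ_T : tg j0 0 * tg j0 0 * (tg j0 2 * tg j0 2)
    = tg j0 2 * tg j0 2 * (tg j0 0 * tg j0 0) :=
  (Z_central j0 h2 hi (tg j0 0 * tg j0 0)).eq

include h2 hi in
theorem exL34T (hc : (10 : k) ≠ 0) :
    (∀ f : Fin 4 → TA j0, (∀ i, ∑ j, f j * tm' j0 i j = 0) →
      ∃ h : TA j0, ∀ j, f j = h * tg j0 j) ∧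
    (∀ h : TA j0, (∀ j, h * tg j0 j = 0) → h = 0) :=
  ex34 (tg j0) (tm' j0) (exR1T j0 h2 hi hc) (fun _ => 1) (x_XT j0 h2 hi) (XZ_T j0 h2 hi)
    (regR j0 h2 hi).1 (regR j0 h2 hi).2

include h2 hi in
theorem exR34T : (∀ f : Fin 4 → (TA j0)ᵐᵒᵖ,
      (∀ i, ∑ j, f j * MulOpposite.op (tm j0 i j) = 0) →
      ∃ h : (TA j0)ᵐᵒᵖ, ∀ j, f j = h * MulOpposite.op (tg j0 j)) ∧
    (∀ h : (TA j0)ᵐᵒᵖ, (∀ j, h * MulOpposite.op (tg j0 j) = 0) → h = 0) := by
  refine ex34 (k := k) (fun j => MulOpposite.op (tg j0 j))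
    (fun i j => MulOpposite.op (tm j0 i j)) ?_ (fun _ => 1) ?_ ?_ ?_ ?_
  · intro b hb
    obtain ⟨g, hg⟩ := exL1T j0 h2 (fun j => (b j).unop) (by
      have := congrArg MulOpposite.unop hb
      simpa only [Finset.unop_sum, MulOpposite.unop_mul, MulOpposite.unop_op,
        MulOpposite.unop_zero] using this)
    refine ⟨fun i => MulOpposite.op (g i), fun j => ?_⟩
    have := congrArg MulOpposite.op (hg j)
    simpa only [Finset.op_sum, MulOpposite.op_mul, MulOpposite.op_unop] using this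
  · intro j
    rw [one_smul]
    have h1 := x_XT j0 h2 hi j
    rw [one_smul] at h1
    have := congrArg MulOpposite.op h1.symm
    simpa only [MulOpposite.op_mul, mul_assoc] using this
  · have := congrArg MulOpposite.op (XZ_T j0 h2 hi).symm
    simpa only [MulOpposite.op_mul] using this
  · intro h hh
    have := congrArg MulOpposite.unop hh
    simp only [MulOpposite.unop_mul, MulOpposite.unop_op, MulOpposite.unop_zero] at this
    exact MulOpposite.unop_injective ((regL j0 h2 hi).1 _ this)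
  · intro h h' hh
    have := congrArg MulOpposite.unop hh
    simp only [MulOpposite.unop_mul, MulOpposite.unop_op] at this
    obtain ⟨z, hz⟩ := (regL j0 h2 hi).2 _ _ this
    refine ⟨MulOpposite.op z, ?_⟩
    apply MulOpposite.unop_injective
    simpa only [MulOpposite.unop_mul, MulOpposite.unop_op] using hz

theorem tm_mem (i : Fin 6) (l : Fin 4) : tm j0 i l ∈ gT j0 1 := by
  rw [← rowL_T, rowL]
  exact Submodule.sum_mem _ fun j _ => Submodule.smul_mem _ _ (gx_mem _ _ j)

theorem tm'_mem (i : Fin 6) (l : Fin 4) : tm' j0 i l ∈ gT j0 1 :=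
  Submodule.sum_mem _ fun j _ => Submodule.smul_mem _ _ (tm_mem j0 j l)

include h2 hi in
theorem leftKosT (hc : (10 : k) ≠ 0) : LeftKos (tg j0) (tm j0) (tm' j0) :=
  Pool.Agent.W655.PM.eul k (TA j0) (gT j0) (tg j0) (tm j0) (tm' j0)
    (conn_gT j0 h2 hi) (finrank_gT j0 h2 hi) (gx_mem _ _) (tm_mem j0) (tm'_mem j0)
    (fun n a ha => gen1 (conn_gT j0 h2 hi) _ (adjoin_TA j0 h2) (gx_mem _ _) n a ha)
    (tm_x j0 h2) (tm'_tm j0 h2 hi) (x_tm' j0 h2) (exL1T j0 h2)
    (exL34T j0 h2 hi hc).1 (exL34T j0 h2 hi hc).2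

include h2 hi in
theorem rightKosT (hc : (10 : k) ≠ 0) :
    LeftKos (fun j => MulOpposite.op (tg j0 j)) (fun i j => MulOpposite.op (tm' j0 i j))
      (fun i j => MulOpposite.op (tm j0 i j)) := by
  apply Pool.Agent.W655.PM.eul k (TA j0)ᵐᵒᵖ (opGr (gT j0)) _ _ _
    (conn_gT j0 h2 hi).op
  · intro n
    rw [finrank_opGr, finrank_gT j0 h2 hi]
  · intro j; rw [mem_opGr]; exact gx_mem _ _ j
  · intro i j; rw [mem_opGr]; exact tm'_mem j0 i j
  · intro i j; rw [mem_opGr]; exact tm_mem j0 i j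
  · intro n a ha
    exact gen1 (conn_gT j0 h2 hi).op _ (isPres_TA j0 h2).op.gen
      (fun j => by rw [mem_opGr]; exact gx_mem _ _ j) n a ha
  · intro i
    have := congrArg MulOpposite.op (x_tm' j0 h2 i)
    simpa only [Finset.op_sum, MulOpposite.op_mul, MulOpposite.op_zero] using this
  · intro j l
    have := congrArg MulOpposite.op (tm'_tm j0 h2 hi l j)
    simpa only [Finset.op_sum, MulOpposite.op_mul, MulOpposite.op_zero] using this
  · intro i
    have := congrArg MulOpposite.op (tm_x j0 h2 i)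
    simpa only [Finset.op_sum, MulOpposite.op_mul, MulOpposite.op_zero] using this
  · intro f hf
    obtain ⟨g, hg⟩ := exR1T j0 h2 hi hc (fun j => (f j).unop) (by
      have := congrArg MulOpposite.unop hf
      simpa only [Finset.unop_sum, MulOpposite.unop_mul, MulOpposite.unop_op,
        MulOpposite.unop_zero] using this)
    refine ⟨fun i => MulOpposite.op (g i), fun j => ?_⟩
    have := congrArg MulOpposite.op (hg j)
    simpa only [Finset.op_sum, MulOpposite.op_mul, MulOpposite.op_unop] using this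
  · exact (exR34T j0 h2 hi).1
  · exact (exR34T j0 h2 hi).2

end

end Pool.Agent.V1150.TP
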