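import Pool.Agent.V1150.TP.A

/-!
# The point scheme has exactly two points
-/

set_option autoImplicit false

universe u

namespace Pool.Agent.V1150.TP

open Pool.Agent.W506.PM
open scoped LinearAlgebra.Projectivization

variable {k : Type u} [Field k]

/-- The six equations of the point scheme (coordinates `0 = c`, `1 = a`, `2 = d`, `3 = b`). -/
structure EqT (j0 : k) (p q : Fin 4 → k) : Prop where
  e0 : p 1 * q 1 = al j0 * (p 0 * q 0) + be j0 * (p 2 * q 2)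
  e1 : p 3 * q 3 = 2 * (p 0 * q 0) + ga j0 * (p 2 * q 2)
  e2 : p 2 * q 0 + p 0 * q 2 = 0
  e3 : p 1 * q 0 + p 0 * q 1 = p 1 * q 2 + p 2 * q 1 + de j0 * (p 2 * q 2)
  e4 : p 3 * q 0 + p 0 * q 3 = p 1 * q 2 + p 2 * q 1 - 2 * (p 2 * q 2)
  e5 : p 3 * q 2 + p 2 * q 3
    = -(p 1 * q 2 + p 2 * q 1) + 2 * (p 0 * q 0) + ga j0 * (p 2 * q 2)

theorem zero_iffT (j0 : k) (p q : Fin 4 → k) : Zero (rt j0) p q ↔ EqT j0 p q := by
  constructor
  · intro h
    have h0 := h 0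
    have h1 := h 1
    have h2 := h 2
    have h3 := h 3
    have h4 := h 4
    have h5 := h 5
    simp [Fin.sum_univ_four, rt] at h0 h1 h2 h3 h4 h5
    refine ⟨?_, ?_, ?_, ?_, ?_, ?_⟩
    · linear_combination h0
    · linear_combination h1
    · linear_combination h2
    · linear_combination h3
    · linear_combination h4
    · linear_combination h5
  · rintro ⟨h0, h1, h2, h3, h4, h5⟩ i
    fin_cases i
    · simp [Fin.sum_univ_four, rt]; linear_combination h0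
    · simp [Fin.sum_univ_four, rt]; linear_combination h1
    · simp [Fin.sum_univ_four, rt]; linear_combination h2
    · simp [Fin.sum_univ_four, rt]; linear_combination h3
    · simp [Fin.sum_univ_four, rt]; linear_combination h4
    · simp [Fin.sum_univ_four, rt]; linear_combination h5

theorem EqT.symm {j0 : k} {p q : Fin 4 → k} (h : EqT j0 p q) : EqT j0 q p where
  e0 := by linear_combination h.e0
  e1 := by linear_combination h.e1
  e2 := by linear_combination h.e2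
  e3 := by linear_combination h.e3
  e4 := by linear_combination h.e4
  e5 := by linear_combination h.e5

theorem EqT.smul {j0 : k} {p q : Fin 4 → k} (h : EqT j0 p q) (x y : k) :
    EqT j0 (x • p) (y • q) where
  e0 := by simp only [Pi.smul_apply, smul_eq_mul]; linear_combination (x * y) * h.e0
  e1 := by simp only [Pi.smul_apply, smul_eq_mul]; linear_combination (x * y) * h.e1
  e2 := by simp only [Pi.smul_apply, smul_eq_mul]; linear_combination (x * y) * h.e2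
  e3 := by simp only [Pi.smul_apply, smul_eq_mul]; linear_combination (x * y) * h.e3
  e4 := by simp only [Pi.smul_apply, smul_eq_mul]; linear_combination (x * y) * h.e4
  e5 := by simp only [Pi.smul_apply, smul_eq_mul]; linear_combination (x * y) * h.e5

theorem j_ne {j0 : k} (hi : j0 ^ 2 = -1) : j0 ≠ 0 := by
  rintro rfl
  norm_num at hi

/-- the main case -/
theorem core (h2 : (2 : k) ≠ 0) {j0 : k} (hi : j0 ^ 2 = -1) (a a' b b' t : k)
    (e0 : a * a' = al j0 - be j0 * t ^ 2) (e1 : b * b' = 2 - ga j0 * t ^ 2)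
    (e3 : a + a' = t * (a' - a) - de j0 * t ^ 2)
    (e4 : b + b' = t * (a' - a) + 2 * t ^ 2)
    (e5 : t * (b' - b) = -(t * (a' - a)) + 2 - ga j0 * t ^ 2) : False := by
  simp only [al, be, ga, de] at e0 e1 e3 e4 e5
  obtain ⟨w, rfl⟩ : ∃ w, a' = a + 2 * w := ⟨(a' - a) / 2, by field_simp; ring⟩
  have h4 : (4 : k) ≠ 0 := by
    intro h; apply h2
    have : (2 : k) * 2 = 0 := by linear_combination h
    rcases mul_eq_zero.1 this with h | h <;> exact h
  have ha : a + w = t * w + (1 - j0) * t ^ 2 := by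
    apply mul_left_cancel₀ h2
    linear_combination e3
  have hF1 : w ^ 2 * (t ^ 2 - 1) + 2 * (1 - j0) * t ^ 3 * w
      + ((1 - j0) ^ 2 * t ^ 4 - (1 + 2 * j0) * t ^ 2 - (2 * j0 - 3)) = 0 := by
    linear_combination e0 - (a + w + t * w + (1 - j0) * t ^ 2) * ha
  have hF2 : t ^ 4 * (w + t) ^ 2 - (t * w - 1 + (1 + j0) * t ^ 2) ^ 2 - 2 * t ^ 2
      + 2 * (1 + j0) * t ^ 4 = 0 := by
    apply mul_left_cancel₀ h4
    linear_combination (-(t ^ 2) * (b + b' + 2 * (t * w + t ^ 2))) * e4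
      + (t * (b' - b) - 2 * (t * w - 1 + (1 + j0) * t ^ 2)) * e5 + 4 * t ^ 2 * e1
  have hL : 2 * t * ((t ^ 2 - 1) * (j0 * t ^ 2 - 1)) * w
      + ((1 + 2 * j0) * t ^ 6 + (3 + 2 * j0) * t ^ 4 + (-3 + 4 * j0) * t ^ 2 - 1) = 0 := by
    linear_combination hF2 - t ^ 2 * hF1 + (t ^ 6 + t ^ 4) * hi
  have h7 : (t ^ 2 - 1) ^ 7 = 0 := by
    linear_combination (4 * t ^ 2 * ((t ^ 2 - 1) * (j0 * t ^ 2 - 1)) ^ 2) * hF1
      - ((t ^ 2 - 1) * (2 * t * ((t ^ 2 - 1) * (j0 * t ^ 2 - 1)) * w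
          - ((1 + 2 * j0) * t ^ 6 + (3 + 2 * j0) * t ^ 4 + (-3 + 4 * j0) * t ^ 2 - 1))
        + 4 * (1 - j0) * t ^ 4 * ((t ^ 2 - 1) * (j0 * t ^ 2 - 1))) * hL
      - ((4*j0^2*t^14) + (-8*j0^2*t^12) + (4*j0^2*t^10) + (24*j0*t^10) + (-16*j0*t^8)
        + (-8*j0*t^6) + (16*t^12) + (-12*t^10) + (-24*t^8) + (20*t^6)) * hi
  have hT : t ^ 2 - 1 = 0 := pow_eq_zero_iff (by norm_num) |>.1 h7
  have hj : (2 : k) * (2 * (2 * j0)) = 0 := by
    have e : t ^ 2 = 1 := sub_eq_zero.1 hT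
    have e6 : t ^ 6 = 1 := by
      have : t ^ 6 = (t ^ 2) ^ 3 := by ring
      rw [this, e, one_pow]
    have e4' : t ^ 4 = 1 := by
      have : t ^ 4 = (t ^ 2) ^ 2 := by ring
      rw [this, e, one_pow]
    rw [e6, e4', e] at hL
    linear_combination hL
  have := j_ne hi
  simp [h2, this] at hj

/-- both vectors have `c`- and `d`-coordinates zero -/
theorem no_cd (h2 : (2 : k) ≠ 0) {j0 : k} (hi : j0 ^ 2 = -1) {p q : Fin 4 → k}
    (h : EqT j0 p q) (hp : ¬ (p 0 = 0 ∧ p 2 = 0)) (hq : ¬ (q 0 = 0 ∧ q 2 = 0)) : False := by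
  have hj := j_ne hi
  by_cases hp2 : p 2 = 0
  · have hp0 : p 0 ≠ 0 := fun h0 => hp ⟨h0, hp2⟩
    have e2 := h.e2
    rw [hp2, zero_mul, zero_add] at e2
    have hq2 : q 2 = 0 := (mul_eq_zero.1 e2).resolve_left hp0
    have hq0 : q 0 ≠ 0 := fun h0 => hq ⟨h0, hq2⟩
    have e5 := h.e5
    rw [hp2, hq2] at e5
    have : (2 : k) * (p 0 * q 0) = 0 := by linear_combination -e5
    rcases mul_eq_zero.1 this with g | g
    · exact h2 g
    · rcases mul_eq_zero.1 g with g | g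
      · exact hp0 g
      · exact hq0 g
  · by_cases hp0 : p 0 = 0
    · have e2 := h.e2
      rw [hp0, zero_mul, add_zero] at e2
      have hq0 : q 0 = 0 := (mul_eq_zero.1 e2).resolve_left hp2
      have hq2 : q 2 ≠ 0 := fun g => hq ⟨hq0, g⟩
      have e3 := h.e3
      have e4 := h.e4
      rw [hp0, hq0] at e3 e4
      simp only [de] at e3
      have : (2 : k) * (j0 * (p 2 * q 2)) = 0 := by linear_combination e4 - e3
      simp [h2, hj, hp2, hq2] at this
    · have hq0 : q 0 ≠ 0 := by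
        intro g
        have e2 := h.e2
        rw [g, mul_zero, zero_add] at e2
        exact hq ⟨g, (mul_eq_zero.1 e2).resolve_left hp0⟩
      have hs := h.smul (p 0)⁻¹ (q 0)⁻¹
      set P := (p 0)⁻¹ • p with hP
      set Q := (q 0)⁻¹ • q with hQ
      have hP0 : P 0 = 1 := by simp [hP, hp0]
      have hQ0 : Q 0 = 1 := by simp [hQ, hq0]
      have hQ2 : Q 2 = -P 2 := by
        have e2 := hs.e2
        rw [hP0, hQ0] at e2
        linear_combination e2
      refine core h2 hi (P 1) (Q 1) (P 3) (Q 3) (P 2) ?_ ?_ ?_ ?_ ?_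
      · have e := hs.e0; rw [hP0, hQ0, hQ2] at e; linear_combination e
      · have e := hs.e1; rw [hP0, hQ0, hQ2] at e; linear_combination e
      · have e := hs.e3; rw [hP0, hQ0, hQ2] at e; linear_combination e
      · have e := hs.e4; rw [hP0, hQ0, hQ2] at e; linear_combination e
      · have e := hs.e5; rw [hP0, hQ0, hQ2] at e; linear_combination e

/-- the two types of solutions -/
theorem classT (h2 : (2 : k) ≠ 0) {j0 : k} (hi : j0 ^ 2 = -1) {p q : Fin 4 → k}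
    (hp : p ≠ 0) (hq : q ≠ 0) (h : EqT j0 p q) :
    (p 0 = 0 ∧ p 2 = 0 ∧ q 0 = 0 ∧ q 2 = 0) ∧
    ((p 3 = 0 ∧ q 1 = 0 ∧ p 1 ≠ 0 ∧ q 3 ≠ 0) ∨ (p 1 = 0 ∧ q 3 = 0 ∧ p 3 ≠ 0 ∧ q 1 ≠ 0)) := by
  have ext4 : ∀ r : Fin 4 → k, r 0 = 0 → r 1 = 0 → r 2 = 0 → r 3 = 0 → r = 0 := by
    intro r h0 h1 h3 h4
    funext l
    fin_cases l
    exacts [h0, h1, h3, h4]
  -- if `p 0 = p 2 = 0` then `q 0 = q 2 = 0`
  have step : ∀ p q : Fin 4 → k, p ≠ 0 → EqT j0 p q → p 0 = 0 → p 2 = 0 → q 0 = 0 ∧ q 2 = 0 := by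
    intro p q hp h hp0 hp2
    have e0 := h.e0
    have e1 := h.e1
    have e3 := h.e3
    have e4 := h.e4
    have e5 := h.e5
    rw [hp0, hp2] at e0 e1 e3 e4 e5
    have f0 : p 1 * q 1 = 0 := by linear_combination e0
    have f3 : p 1 * (q 0 - q 2) = 0 := by linear_combination e3
    have f4 : p 3 * q 0 = p 1 * q 2 := by linear_combination e4
    have f5 : p 3 * q 2 = -(p 1 * q 2) := by linear_combination e5
    by_cases hp1 : p 1 = 0
    · have hp3 : p 3 ≠ 0 := fun g => hp (ext4 p hp0 hp1 hp2 g)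
      rw [hp1] at f4 f5
      constructor
      · have : p 3 * q 0 = 0 := by linear_combination f4
        exact (mul_eq_zero.1 this).resolve_left hp3
      · have : p 3 * q 2 = 0 := by linear_combination f5
        exact (mul_eq_zero.1 this).resolve_left hp3
    · have g3 : q 0 - q 2 = 0 := (mul_eq_zero.1 f3).resolve_left hp1
      have g4 : q 0 = q 2 := sub_eq_zero.1 g3
      rw [g4] at f4
      have : (2 : k) * (p 1 * q 2) = 0 := by linear_combination f5 - f4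
      have g2 : q 2 = 0 := by
        rcases mul_eq_zero.1 this with g | g
        · exact absurd g h2
        · exact (mul_eq_zero.1 g).resolve_left hp1
      exact ⟨g4.trans g2, g2⟩
  have hpq : (p 0 = 0 ∧ p 2 = 0) ∧ (q 0 = 0 ∧ q 2 = 0) := by
    by_cases hpc : p 0 = 0 ∧ p 2 = 0
    · exact ⟨hpc, step p q hp h hpc.1 hpc.2⟩
    · by_cases hqc : q 0 = 0 ∧ q 2 = 0
      · exact ⟨step q p hq h.symm hqc.1 hqc.2, hqc⟩
      · exact absurd (no_cd h2 hi h hpc hqc) id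
  obtain ⟨⟨hp0, hp2⟩, hq0, hq2⟩ := hpq
  refine ⟨⟨hp0, hp2, hq0, hq2⟩, ?_⟩
  have e0 := h.e0
  have e1 := h.e1
  rw [hp0, hp2] at e0 e1
  have f0 : p 1 * q 1 = 0 := by linear_combination e0
  have f1 : p 3 * q 3 = 0 := by linear_combination e1
  by_cases hp1 : p 1 = 0
  · have hp3 : p 3 ≠ 0 := fun g => hp (ext4 p hp0 hp1 hp2 g)
    have hq3 : q 3 = 0 := (mul_eq_zero.1 f1).resolve_left hp3
    exact Or.inr ⟨hp1, hq3, hp3, fun g => hq (ext4 q hq0 g hq2 hq3)⟩
  · have hq1 : q 1 = 0 := (mul_eq_zero.1 f0).resolve_left hp1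
    have hq3 : q 3 ≠ 0 := fun g => hq (ext4 q hq0 hq1 hq2 g)
    exact Or.inl ⟨(mul_eq_zero.1 f1).resolve_right hq3, hq1, hp1, hq3⟩

theorem uniqT (h2 : (2 : k) ≠ 0) {j0 : k} (hi : j0 ^ 2 = -1) (p q q' : Fin 4 → k) (hp : p ≠ 0)
    (hq : q ≠ 0) (hq' : q' ≠ 0) (h : EqT j0 p q) (h' : EqT j0 p q') : ∃ c : k, q' = c • q := by
  obtain ⟨⟨-, -, hq0, hq2⟩, hc⟩ := classT h2 hi hp hq h
  obtain ⟨⟨-, -, hq0', hq2'⟩, hc'⟩ := classT h2 hi hp hq' h'
  rcases hc with ⟨a1, a2, a3, a4⟩ | ⟨a1, a2, a3, a4⟩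
  · rcases hc' with ⟨b1, b2, b3, b4⟩ | ⟨b1, b2, b3, b4⟩
    · refine ⟨q' 3 / q 3, ?_⟩
      funext l
      fin_cases l
      · show q' 0 = q' 3 / q 3 * q 0; rw [hq0, hq0', mul_zero]
      · show q' 1 = q' 3 / q 3 * q 1; rw [a2, b2, mul_zero]
      · show q' 2 = q' 3 / q 3 * q 2; rw [hq2, hq2', mul_zero]
      · show q' 3 = q' 3 / q 3 * q 3; rw [div_mul_cancel₀ _ a4]
    · exact absurd b1 a3
  · rcases hc' with ⟨b1, b2, b3, b4⟩ | ⟨b1, b2, b3, b4⟩
    · exact absurd a1 b3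
    · refine ⟨q' 1 / q 1, ?_⟩
      funext l
      fin_cases l
      · show q' 0 = q' 1 / q 1 * q 0; rw [hq0, hq0', mul_zero]
      · show q' 1 = q' 1 / q 1 * q 1; rw [div_mul_cancel₀ _ a4]
      · show q' 2 = q' 1 / q 1 * q 2; rw [hq2, hq2', mul_zero]
      · show q' 3 = q' 1 / q 1 * q 3; rw [a2, b2, mul_zero]

/-- the two points -/
def pt (e : Bool) : Fin 4 → k := if e then ![0, 1, 0, 0] else ![0, 0, 0, 1]

theorem pt_ne (e : Bool) : pt (k := k) e ≠ 0 := by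
  intro h
  cases e
  · have := congrFun h 3; simp [pt] at this
  · have := congrFun h 1; simp [pt] at this

theorem pt_eq (j0 : k) (e : Bool) : EqT j0 (pt e) (pt !e) := by
  cases e <;> exact ⟨by simp [pt], by simp [pt], by simp [pt], by simp [pt], by simp [pt],
    by simp [pt]⟩

theorem cardT (h2 : (2 : k) ≠ 0) {j0 : k} (hi : j0 ^ 2 = -1) :
    Nat.card {P : ℙ k (Fin 4 → k) // ∃ q : Fin 4 → k, q ≠ 0 ∧ EqT j0 P.rep q} = 2 := by
  have hb : Nat.card Bool = 2 := by simp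
  rw [← hb]
  symm
  refine Nat.card_eq_of_bijective
    (fun e : Bool => ⟨Projectivization.mk k (pt e) (pt_ne e), ?_⟩) ⟨?_, ?_⟩
  · obtain ⟨a, ha⟩ := Projectivization.exists_smul_eq_mk_rep k (pt (k := k) e) (pt_ne e)
    refine ⟨pt !e, pt_ne _, ?_⟩
    rw [← ha]
    have := (pt_eq j0 e).smul (a : k) 1
    rw [one_smul] at this
    exact this
  · intro e e' h
    have h1 : Projectivization.mk k (pt e) (pt_ne e) = Projectivization.mk k (pt e') (pt_ne e') :=
      congrArg Subtype.val h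
    rw [Projectivization.mk_eq_mk_iff'] at h1
    obtain ⟨a, ha⟩ := h1
    cases e <;> cases e'
    · rfl
    · have := congrFun ha 3; simp [pt] at this
    · have := congrFun ha 1; simp [pt] at this
    · rfl
  · rintro ⟨P, q, hq, h⟩
    obtain ⟨⟨h0, h3, -, -⟩, hc⟩ := classT h2 hi P.rep_nonzero hq h
    rcases hc with ⟨g3, -, g1, -⟩ | ⟨g1, -, g3, -⟩
    · refine ⟨true, Subtype.ext ?_⟩
      simp only
      conv_rhs => rw [← P.mk_rep]
      rw [Projectivization.mk_eq_mk_iff']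
      refine ⟨(P.rep 1)⁻¹, ?_⟩
      funext l
      fin_cases l
      · show (P.rep 1)⁻¹ * P.rep 0 = 0; rw [h0, mul_zero]
      · show (P.rep 1)⁻¹ * P.rep 1 = 1; rw [inv_mul_cancel₀ g1]
      · show (P.rep 1)⁻¹ * P.rep 2 = 0; rw [h3, mul_zero]
      · show (P.rep 1)⁻¹ * P.rep 3 = 0; rw [g3, mul_zero]
    · refine ⟨false, Subtype.ext ?_⟩
      simp only
      conv_rhs => rw [← P.mk_rep]
      rw [Projectivization.mk_eq_mk_iff']
      refine ⟨(P.rep 3)⁻¹, ?_⟩
      funext l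
      fin_cases l
      · show (P.rep 3)⁻¹ * P.rep 0 = 0; rw [h0, mul_zero]
      · show (P.rep 3)⁻¹ * P.rep 1 = 0; rw [g1, mul_zero]
      · show (P.rep 3)⁻¹ * P.rep 2 = 0; rw [h3, mul_zero]
      · show (P.rep 3)⁻¹ * P.rep 3 = 1; rw [inv_mul_cancel₀ g3]

end Pool.Agent.V1150.TP
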