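import Pool.Agent.V1150.TP.L
import Pool.Agent.V1150.TP.P
import Pool.Agent.W506.PM.Main

/-!
# Assembly
-/

set_option autoImplicit false

universe u

namespace Pool.Agent.V1150.TP

open Pool.Agent.W506.PM
open CategoryTheory Abelian
open scoped LinearAlgebra.Projectivization

variable {k : Type u} [Field k]

theorem normal_of_central {A : Type u} [Ring A] {n : ℕ} (r : Fin n → A)
    (h : ∀ i u, Commute u (r i)) : IsNormalizingSeq r := by
  intro i
  constructor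
  · intro a
    refine ⟨a, ?_⟩
    rw [(h i a).eq, sub_self]
    exact TwoSidedIdeal.zero_mem _
  · intro a
    refine ⟨a, ?_⟩
    rw [(h i a).eq, sub_self]
    exact TwoSidedIdeal.zero_mem _

theorem gy_central (j0 : k) (h2 : (2 : k) ≠ 0) (hi : j0 ^ 2 = -1) (l : Fin 4) (u : TA j0) :
    Commute u (gy k mu1 (MT j0) l) := by
  fin_cases l
  · show Commute u (gy k mu1 (MT j0) 0)
    rw [ty0_eq]; exact P_central j0 h2 hi u
  · show Commute u (gy k mu1 (MT j0) 1)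
    rw [ty1_eq]; exact Q_central j0 h2 hi u
  · show Commute u (gy k mu1 (MT j0) 2)
    rw [ty2_eq j0 h2]; exact X_central j0 h2 hi u
  · show Commute u (gy k mu1 (MT j0) 3)
    rw [ty3_eq j0 h2]; exact Z_central j0 h2 hi u

theorem isGSCA_TA (j0 : k) (h2 : (2 : k) ≠ 0) (hi : j0 ^ 2 = -1) :
    IsGSCA k mu1 (MT j0) where
  mu_ne_zero i j := one_ne_zero
  mu_mul i j := one_mul 1
  mu_diag i := rfl
  symm l i j := by
    fin_cases l <;> fin_cases i <;> fin_cases j <;> simp [mu1, MT]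
  normalizing := ⟨gy k mu1 (MT j0), rfl, normal_of_central _ fun l u => gy_central j0 h2 hi l u⟩

/-- **Main theorem.** -/
theorem mainT (j0 : k) (h2 : (2 : k) ≠ 0) (h5 : (5 : k) ≠ 0) (hi : j0 ^ 2 = -1) :
    IsGSCA k mu1 (MT j0) ∧ (∀ l u, Commute u (gy k mu1 (MT j0) l)) ∧
      IsQuadratic (ggr k mu1 (MT j0)) ∧ IsASRegular (ggr k mu1 (MT j0)) 4 ∧
      Nat.card (PointClasses (ggr k mu1 (MT j0))) = 2 := by
  have hc : (10 : k) ≠ 0 := by
    have : (10 : k) = 2 * 5 := by norm_num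
    rw [this]; exact mul_ne_zero h2 h5
  have hP := isPres_TA j0 h2
  have hL := leftKosT j0 h2 hi hc
  have hR := rightKosT j0 h2 hi hc
  have hconn := conn_gT j0 h2 hi
  have hgenL : ∀ n, ∀ a ∈ gT j0 (n + 1), ∃ f : Fin 4 → TA j0, a = ∑ j, f j * tg j0 j :=
    fun n a ha => gen1 hconn _ (adjoin_TA j0 h2) (gx_mem _ _) n a ha
  have hgenR : ∀ n, ∀ a ∈ opGr (gT j0) (n + 1), ∃ f : Fin 4 → (TA j0)ᵐᵒᵖ,
      a = ∑ j, f j * MulOpposite.op (tg j0 j) :=
    fun n a ha => gen1 hconn.op _ hP.op.gen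
      (fun j => by rw [mem_opGr]; exact gx_mem _ _ j) n a ha
  have hgenL' : ∀ n, ∀ a ∈ gT j0 (n + 1), ∃ f : Fin 4 → TA j0, a = ∑ j, tg j0 j * f j := by
    intro n a ha
    obtain ⟨f, hf⟩ := hgenR n (MulOpposite.op a) (by rw [mem_opGr]; exact ha)
    refine ⟨fun j => (f j).unop, ?_⟩
    have := congrArg MulOpposite.unop hf
    simpa only [Finset.unop_sum, MulOpposite.unop_mul, MulOpposite.unop_op] using this
  have hgenR' : ∀ n, ∀ a ∈ opGr (gT j0) (n + 1), ∃ f : Fin 4 → (TA j0)ᵐᵒᵖ,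
      a = ∑ j, MulOpposite.op (tg j0 j) * f j := by
    intro n a ha
    obtain ⟨f, hf⟩ := hgenL n a.unop (mem_opGr.1 ha)
    refine ⟨fun j => MulOpposite.op (f j), ?_⟩
    have := congrArg MulOpposite.op hf
    simpa only [Finset.op_sum, MulOpposite.op_mul, MulOpposite.op_unop] using this
  refine ⟨isGSCA_TA j0 h2 hi, fun l u => gy_central j0 h2 hi l u,
    isQuadratic_of_pres _ hP (gx_mem _ _), ⟨hconn, ⟨27, fun n => ?_⟩, ?_, ?_⟩, ?_⟩
  · rw [show Module.finrank k (ggr k mu1 (MT j0) n) = (n + 3).choose 3 from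
      finrank_gT j0 h2 hi n]
    exact growth_aux n
  · obtain ⟨e1, e2, e3⟩ := Pool.Agent.W45.PM.ext k (TA j0) (gT j0) (tg j0) (tm j0)
      (tm' j0) hconn (gx_mem _ _) hgenL hgenL' hL hR
    exact ⟨Pool.Agent.W991.PMGLD.mainGLD k (TA j0) (gT j0) (tg j0) (tm j0) (tm' j0)
      hconn (gx_mem _ _) (tm_mem j0) (tm'_mem j0) hgenL hL, e1, e2, e3⟩
  · have hx : ∀ j, MulOpposite.op (tg j0 j) ∈ opGr (gT j0) 1 := fun j => by
      rw [mem_opGr]; exact gx_mem _ _ j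
    obtain ⟨e1, e2, e3⟩ := Pool.Agent.W45.PM.ext k (TA j0)ᵐᵒᵖ (opGr (gT j0))
      (fun j => MulOpposite.op (tg j0 j)) (fun i j => MulOpposite.op (tm' j0 i j))
      (fun i j => MulOpposite.op (tm j0 i j)) hconn.op hx hgenR hgenR' hR
      (hL.map (RingEquiv.opOp (TA j0)))
    exact ⟨Pool.Agent.W991.PMGLD.mainGLD k (TA j0)ᵐᵒᵖ (opGr (gT j0)) _ _ _
      hconn.op hx (fun i j => by rw [mem_opGr]; exact tm'_mem j0 i j)
      (fun i j => by rw [mem_opGr]; exact tm_mem j0 i j) hgenR hR, e1, e2, e3⟩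
  · have c2 := uniqT (k := k) h2 hi
    have c3 : ∀ p q : Fin 4 → k, p ≠ 0 → q ≠ 0 → EqT j0 p q →
        ∃ s : Fin 4 → k, s ≠ 0 ∧ EqT j0 q s := fun p q hp _ h => ⟨p, hp, h.symm⟩
    have := Pool.Agent.W428.PMOD.taskPMOD k (TA j0) (gT j0) 4 6 (tg j0) (rt j0) hconn hP
      (gx_mem _ _) (by simpa only [zero_iffT] using c2) (by simpa only [zero_iffT] using c3)
    simp only [zero_iffT] at this
    exact this.trans (cardT h2 hi)

end Pool.Agent.V1150.TP
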